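import Mathlib

/-!
# The area formula with multiplicity for holomorphic maps of the plane
(the proof of `Pool.Agent.FinVol2.AF`, in one variable)
-/

set_option linter.unusedSectionVars false
set_option linter.unusedVariables false

open MeasureTheory Complex Topology Filter
open scoped ENNReal

namespace Pool.Agent.E8helper65.MC

lemma jac_det (h : ℂ → ℂ) (z : ℂ) :
    |((fderiv ℂ h z).restrictScalars ℝ).det| = ‖deriv h z‖ ^ 2 := by
  have h1 : ((fderiv ℂ h z).restrictScalars ℝ).det =
      Algebra.norm ℝ (LinearMap.det ((fderiv ℂ h z : ℂ →ₗ[ℂ] ℂ))) := by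
    rw [← LinearMap.det_restrictScalars]
    rfl
  have h2 : LinearMap.det ((fderiv ℂ h z : ℂ →ₗ[ℂ] ℂ)) = deriv h z := by
    rw [LinearMap.det_ring]
    rfl
  rw [h1, h2, Algebra.norm_complex_apply, Complex.normSq_eq_norm_sq, abs_of_nonneg (by positivity)]

lemma hasF (W : Set ℂ) (hW : IsOpen W) (h : ℂ → ℂ)
    (hh : DifferentiableOn ℂ h W) (z : ℂ) (hz : z ∈ W) :
    HasFDerivAt h ((fderiv ℂ h z).restrictScalars ℝ) z :=
  ((hh.differentiableAt (hW.mem_nhds hz)).hasFDerivAt).restrictScalars ℝ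

/-- the multiplicity sum -/
noncomputable def mult (S : Set ℂ) (h : ℂ → ℂ)
    (g : ℂ → ℝ≥0∞) (x : ℂ) : ℝ≥0∞ := ∑' z : {z // z ∈ S ∧ h z = x}, g z

lemma piece (W A : Set ℂ) (hW : IsOpen W) (hA : MeasurableSet A) (hAW : A ⊆ W)
    (h : ℂ → ℂ)
    (hh : DifferentiableOn ℂ h W) (hinj : Set.InjOn h A) (g : ℂ → ℝ≥0∞) (hg : Measurable g) :
    Measurable (mult A h g) ∧ ∫⁻ z in A, ENNReal.ofReal (‖deriv h z‖ ^ 2) * g z =
      ∫⁻ x, mult A h g x := by
  have hf' : ∀ x ∈ A, HasFDerivWithinAt h ((fderiv ℂ h x).restrictScalars ℝ) A x := fun x hx =>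
    (hasF W hW h hh x (hAW hx)).hasFDerivWithinAt
  have hcont : ContinuousOn h A := fun x hx => (hf' x hx).continuousWithinAt
  have hmemb : MeasurableEmbedding (A.domRestrict h) := hcont.measurableEmbedding hA hinj
  have hval : ∀ z ∈ A, mult A h g (h z) = g z := by
    intro z hz
    unfold mult
    rw [tsum_eq_single (⟨z, hz, rfl⟩ : {w // w ∈ A ∧ h w = h z})]
    rintro ⟨w, hw, hwz⟩ hne
    exact absurd (Subtype.ext (hinj hw hz hwz)) hne
  have hval0 : ∀ x, x ∉ h '' A → mult A h g x = 0 := by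
    intro x hx
    unfold mult
    have : IsEmpty {z // z ∈ A ∧ h z = x} := ⟨fun z => hx ⟨z.1, z.2.1, z.2.2⟩⟩
    exact tsum_empty
  have hext : mult A h g = Function.extend (A.domRestrict h) (fun z => g z) (fun _ => 0) := by
    funext x
    by_cases hx : x ∈ h '' A
    · obtain ⟨z, hz, rfl⟩ := hx
      rw [hval z hz]
      have := Function.Injective.extend_apply (hmemb.injective) (fun z : A => g z) (fun _ => 0) ⟨z, hz⟩
      exact this.symm
    · rw [hval0 x hx, Function.extend_apply']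
      rintro ⟨z, rfl⟩
      exact hx ⟨z.1, z.2, rfl⟩
  refine ⟨?_, ?_⟩
  · rw [hext]
    exact hmemb.measurable_extend (hg.comp measurable_subtype_coe) measurable_const
  · have h1 : ∫⁻ z in A, ENNReal.ofReal (‖deriv h z‖ ^ 2) * g z =
        ∫⁻ z in A, ENNReal.ofReal |((fderiv ℂ h z).restrictScalars ℝ).det| * mult A h g (h z) := by
      refine setLIntegral_congr_fun hA (fun z hz => ?_)
      simp only [hval z hz, jac_det]
    have h2 := lintegral_image_eq_lintegral_abs_det_fderiv_mul volume hA hf' hinj (mult A h g)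
    have h3 : ∫⁻ x, mult A h g x = ∫⁻ x in h '' A, mult A h g x := by
      have hm : MeasurableSet (h '' A) := hA.image_of_continuousOn_injOn hcont hinj
      rw [← lintegral_indicator hm]
      refine lintegral_congr (fun x => ?_)
      by_cases hx : x ∈ h '' A
      · rw [Set.indicator_of_mem hx]
      · rw [Set.indicator_of_notMem hx, hval0 x hx]
    rw [h1, h3]
    exact h2.symm

lemma tsum_indicator_eq (S : Set ℂ) (h : ℂ → ℂ)
    (g : ℂ → ℝ≥0∞) (x : ℂ) :
    mult S h g x = ∑' z, Set.indicator {z | z ∈ S ∧ h z = x} g z := by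
  unfold mult
  exact tsum_subtype {z | z ∈ S ∧ h z = x} g

/-- **the area formula with multiplicity** -/
theorem area_lintegral (W : Set ℂ) (hW : IsOpen W) (h : ℂ → ℂ)
    (hh : DifferentiableOn ℂ h W) (g : ℂ → ℝ≥0∞) (hg : Measurable g) :
    AEMeasurable (mult W h g) volume ∧
    ∫⁻ z in W, ENNReal.ofReal (‖deriv h z‖ ^ 2) * g z = ∫⁻ x, mult W h g x := by
  set f' : ℂ → (ℂ →L[ℝ] ℂ) := fun z => (fderiv ℂ h z).restrictScalars ℝ
    with hf'def
  have hf' : ∀ z ∈ W, HasFDerivAt h (f' z) z := hasF W hW h hh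
  -- continuity of the Jacobian
  have hJc : Measurable (fun z => (f' z).det) := by
    have h1 : Measurable (fderiv ℂ h) := measurable_fderiv ℂ h
    have h2 : Continuous (fun A : ℂ →L[ℂ] ℂ => (A.restrictScalars ℝ).det) := by
      have h3 : Continuous (fun A : ℂ →L[ℂ] ℂ => A.restrictScalars ℝ) :=
        (ContinuousLinearMap.restrictScalarsL ℂ ℂ ℂ ℝ ℝ).continuous
      exact ContinuousLinearMap.continuous_det.comp h3
    exact h2.measurable.comp h1
  set N : Set ℂ := W ∩ (fun z => (f' z).det) ⁻¹' {0} with hN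
  set V : Set ℂ := W ∩ (fun z => (f' z).det) ⁻¹' {0}ᶜ with hV
  have hVm : MeasurableSet V := hW.measurableSet.inter (hJc (measurableSet_singleton 0).compl)
  have hNm : MeasurableSet N := hW.measurableSet.inter (hJc (measurableSet_singleton 0))
  have hWNV : W = V ∪ N := by
    ext z; simp only [hN, hV, Set.mem_inter_iff, Set.mem_preimage, Set.mem_singleton_iff,
        Set.mem_union, Set.mem_compl_iff]; tauto
  have hNV : Disjoint V N := by
    rw [Set.disjoint_left]
    rintro z ⟨_, h1⟩ ⟨_, h2⟩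
    exact h1 h2
  have himg : volume (h '' N) = 0 :=
    addHaar_image_eq_zero_of_det_fderivWithin_eq_zero volume
      (fun z hz => (hf' z hz.1).hasFDerivWithinAt) (fun z hz => hz.2)
  -- partition of V
  let r : (ℂ →L[ℝ] ℂ) → NNReal := fun A =>
    if (‖ContinuousLinearMap.inverse A‖₊)⁻¹ / 2 = 0 then 1 else (‖ContinuousLinearMap.inverse A‖₊)⁻¹ / 2
  have hr : ∀ A, r A ≠ 0 := by
    intro A
    by_cases hA : (‖ContinuousLinearMap.inverse A‖₊)⁻¹ / 2 = 0
    · simp only [r, if_pos hA]; exact one_ne_zero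
    · simp only [r, if_neg hA]; exact hA
  obtain ⟨t, A, htd, htm, hVt, hta, hAy⟩ := exists_partition_approximatesLinearOn_of_hasFDerivWithinAt
    h V f' (fun z hz => (hf' z hz.1).hasFDerivWithinAt) r hr
  set P : ℕ → Set ℂ := fun n => V ∩ t n with hP
  have hPm : ∀ n, MeasurableSet (P n) := fun n => hVm.inter (htm n)
  have hPd : Pairwise (fun i j => Disjoint (P i) (P j)) := fun i j hij =>
    (htd hij).mono Set.inter_subset_right Set.inter_subset_right
  have hPU : ⋃ n, P n = V := by
    rw [← Set.inter_iUnion]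
    exact Set.inter_eq_left.mpr hVt
  have hPinj : ∀ n, Set.InjOn h (P n) := by
    intro n
    rcases Set.eq_empty_or_nonempty V with hVe | hVne
    · have : P n = ∅ := by simp [hP, hVe]
      rw [this]; exact Set.injOn_empty h
    · obtain ⟨y, hy, hAy'⟩ := hAy hVne n
      have hdet : (A n).det ≠ 0 := by rw [hAy']; exact hy.2
      let eq := (A n).toContinuousLinearEquivOfDetNeZero hdet
      have heq : (eq : ℂ →L[ℝ] ℂ) = A n :=
        ContinuousLinearMap.coe_toContinuousLinearEquivOfDetNeZero _ _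
      have happ := hta n
      rw [← heq] at happ
      refine happ.injOn ?_
      right
      have hpos : 0 < ‖(eq.symm : ℂ →L[ℝ] ℂ)‖₊ := eq.nnnorm_symm_pos
      have e1 : ContinuousLinearMap.inverse (eq : ℂ →L[ℝ] ℂ) =
        (eq.symm : ℂ →L[ℝ] ℂ) := ContinuousLinearMap.inverse_equiv eq
      simp only [r, e1]
      have hp2 : 0 < ‖(eq.symm : ℂ →L[ℝ] ℂ)‖₊⁻¹ := inv_pos.mpr hpos
      rw [if_neg (ne_of_gt (half_pos hp2))]
      exact half_lt_self hp2
  have hpc := fun n => piece W (P n) hW (hPm n) (fun z hz => hz.1.1) h hh (hPinj n) g hg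
  have hsum : ∀ x, x ∉ h '' N → mult W h g x = ∑' n, mult (P n) h g x := by
    intro x hx
    simp_rw [tsum_indicator_eq]
    rw [ENNReal.tsum_comm]
    congr 1
    funext z
    by_cases hz : z ∈ W ∧ h z = x
    · have hzV : z ∈ V := by
        rcases (hWNV ▸ hz.1 : z ∈ V ∪ N) with h1 | h1
        · exact h1
        · exact absurd ⟨z, h1, hz.2⟩ hx
      rw [← hPU] at hzV
      obtain ⟨n, hn⟩ := Set.mem_iUnion.mp hzV
      rw [tsum_eq_single n, Set.indicator_of_mem (show z ∈ {z | z ∈ W ∧ h z = x} from hz),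
        Set.indicator_of_mem (show z ∈ {z | z ∈ P n ∧ h z = x} from ⟨hn, hz.2⟩)]
      intro m hm
      apply Set.indicator_of_notMem
      rintro ⟨h1, _⟩
      exact Set.disjoint_left.mp (hPd hm) h1 hn
    · rw [Set.indicator_of_notMem (show z ∉ {z | z ∈ W ∧ h z = x} from hz)]
      symm
      rw [ENNReal.tsum_eq_zero]
      intro n
      apply Set.indicator_of_notMem
      rintro ⟨h1, h2⟩
      exact hz ⟨h1.1.1, h2⟩
  have hae : ∀ᵐ x ∂(volume : Measure ℂ), mult W h g x = ∑' n, mult (P n) h g x := by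
    have : ∀ᵐ x ∂(volume : Measure ℂ), x ∉ h '' N := by
      exact compl_mem_ae_iff.mpr himg
    filter_upwards [this] with x hx using hsum x hx
  have hmeas : Measurable (fun x => ∑' n, mult (P n) h g x) :=
    Measurable.ennreal_tsum (fun n => (hpc n).1)
  refine ⟨⟨_, hmeas, hae⟩, ?_⟩
  rw [lintegral_congr_ae hae, lintegral_tsum (fun n => (hpc n).1.aemeasurable)]
  simp_rw [← (hpc _).2]
  rw [← lintegral_iUnion hPm hPd, hPU, hWNV, lintegral_union hNm hNV]
  have hz : ∫⁻ z in N, ENNReal.ofReal (‖deriv h z‖ ^ 2) * g z = 0 := by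
    rw [setLIntegral_congr_fun (g := fun _ => 0) hNm]
    · simp
    · intro z hz
      have : |(f' z).det| = 0 := by
        rw [abs_eq_zero]; exact hz.2
      simp only [hf'def, jac_det] at this
      simp only [this]
      simp
  rw [hz, add_zero]

end Pool.Agent.E8helper65.MC
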