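import Pool.Agent.E8helper65.MC.DR
import Pool.Agent.H135R2.VS.Der

/-!
# Constant coefficients
-/

set_option linter.unusedSectionVars false
set_option linter.unusedVariables false

namespace Pool.Agent.E8helper65.MC

open Polynomial Differential

universe u v

variable {F : Type u} {K : Type v} [Field F] [IsAlgClosed F] [CharZero F] [Field K] [Algebra F K]

lemma mem_range_of_alg (x : K) (h : IsAlgebraic F x) : x ∈ (algebraMap F K).range := by
  have h1 : IsIntegral F x := h.isIntegral
  exact minpoly.mem_range_of_degree_eq_one F x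
    (IsAlgClosed.degree_eq_one_of_irreducible F (minpoly.irreducible h1))

/-- derivations detect constants -/
lemma exists_der_one (x : K) (h : x ∉ (algebraMap F K).range) :
    ∃ δ : Derivation F K K, δ x = 1 := by
  have h1 : Transcendental F x := fun h' => h (mem_range_of_alg x h')
  have h2 : AlgebraicIndependent F (fun _ : Unit => x) :=
    algebraicIndependent_unique_type_iff.mpr h1
  obtain ⟨δ, hδ⟩ := Pool.Agent.H135R2.VS.exists_der h2 (fun _ => 1)
  exact ⟨δ, hδ ()⟩

namespace Dat

variable [IsAlgClosed K] [CharZero K] [DecidableEq K] (D : Dat K)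

lemma A_const (hno : ∀ c : K → K, D.Mom c → (∀ b ∈ D.A, D.T c b = c b) → ∀ a ∈ D.A, c a = 0)
    (h0 : (0 : K) ∈ D.A) (h1 : (1 : K) ∈ D.A) (s : F) (hs : algebraMap F K s ∈ D.A) (hs0 : s ≠ 0)
    (hs1 : s ≠ 1) (a : K) (ha : a ∈ D.A) : a ∈ (algebraMap F K).range := by
  by_contra hcon
  obtain ⟨δ, hδ⟩ := exists_der_one a hcon
  let _ : Differential K := ⟨δ.restrictScalars ℤ⟩
  have e : ∀ x : K, x′ = δ x := fun _ => rfl
  have z := D.const_of_no_fixed hno 0 1 (algebraMap F K s) h0 h1 hs zero_ne_one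
    (by rw [← map_zero (algebraMap F K)]; exact fun h => hs0 ((algebraMap F K).injective h).symm)
    (by rw [← map_one (algebraMap F K)]; exact fun h => hs1 ((algebraMap F K).injective h).symm)
    (by rw [e]; exact map_zero δ) (by rw [e]; exact δ.map_one_eq_zero)
    (by rw [e]; exact δ.map_algebraMap s) a ha
  rw [e, hδ] at z
  exact one_ne_zero z

/-- **rational coefficients** -/
theorem coeff_const (hA : ∀ a ∈ D.A, a ∈ (algebraMap F K).range)
    (hcard : 2 * D.d + 1 ≤ D.A.card) : ∃ (u w : F[X]) (t : K), t ≠ 0 ∧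
      D.p = C t * u.map (algebraMap F K) ∧ D.q = C t * w.map (algebraMap F K) := by
  set t := D.q.leadingCoeff with ht
  have ht0 : t ≠ 0 := leadingCoeff_ne_zero.mpr D.q_ne
  set p₀ := C t⁻¹ * D.p with hp₀
  set q₀ := C t⁻¹ * D.q with hq₀
  have hti : (C t : K[X]) * C t⁻¹ = 1 := by rw [← C_mul, mul_inv_cancel₀ ht0, C_1]
  have hp : D.p = C t * p₀ := by rw [hp₀, ← mul_assoc, hti, one_mul]
  have hq : D.q = C t * q₀ := by rw [hq₀, ← mul_assoc, hti, one_mul]
  have hunit : IsUnit (C t⁻¹ : K[X]) := isUnit_C.mpr (IsUnit.mk0 _ (inv_ne_zero ht0))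
  have hco : IsCoprime p₀ q₀ := by
    rw [hp₀, hq₀, isCoprime_mul_unit_left_left hunit, isCoprime_mul_unit_left_right hunit]
    exact D.co
  have hqd : q₀.natDegree = D.d := by
    rw [hq₀, natDegree_C_mul (inv_ne_zero ht0), D.qd]
  have hpd : p₀.natDegree ≤ D.d := (natDegree_C_mul_le _ _).trans D.pd
  have hqm : q₀.Monic := by
    rw [Monic, hq₀, leadingCoeff_mul, leadingCoeff_C, ← ht, inv_mul_cancel₀ ht0]
  have hq0 : q₀ ≠ 0 := hqm.ne_zero
  have key : ∀ n, p₀.coeff n ∈ (algebraMap F K).range ∧ q₀.coeff n ∈ (algebraMap F K).range := by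
    intro n
    by_contra hcon
    obtain ⟨x, hx, hxr⟩ : ∃ x, (x = p₀.coeff n ∨ x = q₀.coeff n) ∧ x ∉ (algebraMap F K).range := by
      by_cases h1 : p₀.coeff n ∈ (algebraMap F K).range
      · exact ⟨_, Or.inr rfl, fun h2 => hcon ⟨h1, h2⟩⟩
      · exact ⟨_, Or.inl rfl, h1⟩
    obtain ⟨δ, hδ⟩ := exists_der_one x hxr
    let _ : Differential K := ⟨δ.restrictScalars ℤ⟩
    have e : ∀ x : K, x′ = δ x := fun _ => rfl
    have hconst : ∀ a ∈ D.A, a′ = 0 := by
      intro a ha
      obtain ⟨b, rfl⟩ := hA a ha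
      rw [e]
      exact δ.map_algebraMap b
    have hd := D.hd
    have hdq : (mapCoeffs q₀).degree < q₀.degree := by
      rw [degree_eq_natDegree hq0, degree_lt_iff_coeff_zero]
      intro m hm
      rw [coeff_mapCoeffs]
      rcases hm.lt_or_eq with h | h
      · rw [coeff_eq_zero_of_natDegree_lt h, e, map_zero]
      · rw [← h, hqm.coeff_natDegree, e]
        exact δ.map_one_eq_zero
    have hz : mapCoeffs p₀ * q₀ - p₀ * mapCoeffs q₀ = 0 := by
      apply Polynomial.eq_zero_of_natDegree_lt_card_of_eval_eq_zero' _ D.A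
      · intro a ha
        obtain ⟨hqa, hfa⟩ := D.fw a ha
        have h1 : p₀.eval a = (D.p.eval a / D.q.eval a) * q₀.eval a := by
          rw [hp₀, hq₀, eval_mul, eval_mul, eval_C]
          field_simp
        have h2 := congrArg (fun z : K => z′) h1
        have h3 : ∀ P : K[X], (P.eval a)′ = (mapCoeffs P).eval a + (derivative P).eval a * a′ := by
          intro P
          have := deriv_aeval_eq a P
          rw [coe_aeval_eq_eval] at this
          exact this
        rw [Derivation.leibniz, h3, h3, hconst a ha, hconst _ hfa] at h2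
        simp only [smul_eq_mul, mul_zero, add_zero] at h2
        have h4 : (mapCoeffs p₀ * q₀ - p₀ * mapCoeffs q₀).eval a =
            (mapCoeffs p₀).eval a * q₀.eval a - p₀.eval a * (mapCoeffs q₀).eval a := by
          rw [eval_sub, eval_mul (p := mapCoeffs p₀) (q := q₀), eval_mul (p := p₀)]
        rw [h4]
        linear_combination q₀.eval a * h2 - (mapCoeffs q₀).eval a * h1
      · have h1 := mapCoeffs_deg p₀
        have h2 := mapCoeffs_deg q₀
        refine lt_of_le_of_lt (natDegree_sub_le _ _) (max_lt ?_ ?_)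
        · refine lt_of_le_of_lt natDegree_mul_le ?_
          omega
        · refine lt_of_le_of_lt natDegree_mul_le ?_
          omega
    have hzq : mapCoeffs q₀ = 0 := by
      have h1 : q₀ ∣ mapCoeffs q₀ := by
        apply hco.symm.dvd_of_dvd_mul_left
        exact ⟨mapCoeffs p₀, by linear_combination -hz⟩
      exact eq_zero_of_dvd_of_degree_lt h1 hdq
    have hzp : mapCoeffs p₀ = 0 := by
      rw [hzq, mul_zero, sub_zero] at hz
      exact (mul_eq_zero.mp hz).resolve_right hq0
    have hx0 : x′ = 0 := by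
      rcases hx with h | h
      · rw [h, ← coeff_mapCoeffs, hzp, coeff_zero]
      · rw [h, ← coeff_mapCoeffs, hzq, coeff_zero]
    rw [e, hδ] at hx0
    exact one_ne_zero hx0
  obtain ⟨u, hu⟩ : ∃ u : F[X], u.map (algebraMap F K) = p₀ := by
    apply (mem_lifts p₀).mp
    rw [lifts_iff_coeff_lifts]
    intro n
    obtain ⟨y, hy⟩ := (key n).1
    exact ⟨y, hy⟩
  obtain ⟨w, hw⟩ : ∃ w : F[X], w.map (algebraMap F K) = q₀ := by
    apply (mem_lifts q₀).mp
    rw [lifts_iff_coeff_lifts]
    intro n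
    obtain ⟨y, hy⟩ := (key n).2
    exact ⟨y, hy⟩
  exact ⟨u, w, t, ht0, by rw [hu, ← hp], by rw [hw, ← hq]⟩

end Dat

end Pool.Agent.E8helper65.MC
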