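import Pool.Agent.E8helper65.MC.LT
import Pool.Agent.E8helper65.MC.CN
import Pool.Agent.E8helper71.MC.Zero

/-!
# McMullen's theorem: assembly
-/

set_option linter.unusedSectionVars false
set_option linter.unusedVariables false

namespace Pool.Agent.E8helper65.MC

open Polynomial
open Pool.Agent.W277.UH Pool.Agent.Y706.CH Pool.Agent.Y195.CH Pool.Agent.Y676.CH
open Pool.Agent.E8helper88.Mul
open Pool.Agent.E8helper71.MC (Lat MOne Lat_conj pcf)

universe u v

/-- the model with a finite invariant set -/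
def S_MODEL : Prop := ∀ (F : Type u) (Om : Type v) [Field F] [IsAlgClosed F] [CharZero F] [Field Om]
    [IsAlgClosed Om] [Algebra F Om] (d : ℕ) (hd : 2 ≤ d) (p q : Om[X]) (hco : IsCoprime p q)
    (hmax : max p.natDegree q.natDegree = d)
    (hcrit : ∀ Z : Om × Om, Z ≠ 0 → WH d p q Z = 0 →
      ∃ m n, m < n ∧ wd ((FH d p q)^[m] Z) ((FH d p q)^[n] Z) = 0),
    ∃ (u w : Om[X]) (A : Finset Om) (s : F), CjF d p q u w ∧ IsCoprime u w ∧ u.natDegree ≤ d ∧
      w.natDegree = d ∧ (∀ a ∈ A, w.eval a ≠ 0 ∧ u.eval a / w.eval a ∈ A) ∧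
      (∀ z, (wr u w).eval z = 0 → w.eval z ≠ 0 ∧ u.eval z / w.eval z ∈ A) ∧
      (wr u w).natDegree = 2 * d - 2 ∧ 2 * d + 1 ≤ A.card ∧ 0 ∈ A ∧ 1 ∈ A ∧
      algebraMap F Om s ∈ A ∧ s ≠ 0 ∧ s ≠ 1

lemma hm_eq {K : Type u} [Field K] (n : ℕ) (A p q : K[X]) : hm n A p q = hc n A p q := by
  unfold hm hc hev
  refine Finset.sum_congr rfl fun i _ => ?_
  rw [coeff_map]

lemma FH_C_mul {K : Type u} [Field K] (d : ℕ) (u w : K[X]) (t : K) (Z : K × K) :
    FH d (C t * u) (C t * w) Z = t • FH d u w Z := by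
  unfold FH
  rw [hev_C_mul, hev_C_mul]
  rfl

/-- **McMullen's theorem in transcendence degree one** -/
theorem mone (hmodel : S_MODEL.{u, u}) : MOne.{u} := by
  classical
  intro F Om _ _ _ _ _ _ t ht hal d hd p q hco hmax hmul
  have hcz : CharZero Om := charZero_of_injective_algebraMap (algebraMap F Om).injective
  by_cases hinf : ∃ Z : Om × Om, Z ≠ 0 ∧ WH d p q Z = 0 ∧
      ∀ m n, m < n → wd ((FH d p q)^[m] Z) ((FH d p q)^[n] Z) ≠ 0
  · obtain ⟨Z, hZ, hc, horb⟩ := hinf
    exact Or.inr (pcf t ht hal d hd p q hco hmax hmul Z hZ hc horb)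
  have hcrit : ∀ Z : Om × Om, Z ≠ 0 → WH d p q Z = 0 →
      ∃ m n, m < n ∧ wd ((FH d p q)^[m] Z) ((FH d p q)^[n] Z) = 0 := by
    intro Z hZ hW
    by_contra hcon
    push Not at hcon
    exact hinf ⟨Z, hZ, hW, fun m n hmn => hcon m n hmn⟩
  obtain ⟨u, w, A, s, hcj, huw, hud, hwd, hfw, hcr, hWd, hcard, h0, h1, hs, hs0, hs1⟩ :=
    hmodel F Om d hd p q hco hmax hcrit
  let D : Dat Om :=
    { d := d
      p := u
      q := w
      A := A
      hd := hd
      co := huw
      pd := hud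
      qd := hwd
      fw := hfw
      cr := hcr
      wd := hWd }
  by_cases hfix : ∃ c : Om → Om, D.Mom c ∧ (∀ b ∈ D.A, D.T c b = c b) ∧ ∃ a ∈ D.A, c a ≠ 0
  · obtain ⟨c, hmo, hT, a, ha, hca⟩ := hfix
    left
    have hid := D.idt_of_fixed c hmo hT ⟨a, ha, hca⟩
    have hU := D.U_ne c a ha hca
    have hUd : (D.U c).natDegree ≤ D.A.card := by
      rcases D.U_deg' c hmo with h | h
      · exact absurd h hU
      · omega
    have hL : Lat d u w := by
      refine ⟨D.U c, D.AA, D.A.card, hU, D.AA_monic.ne_zero, hUd, D.AA_deg.le, ?_⟩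
      unfold Dat.Idt at hid
      rw [hm_eq, hm_eq] at hid
      have e : (wr u w) = D.W := rfl
      rw [e]
      show hc D.A.card (D.U c) D.p D.q * D.W ^ 2 * D.AA =
        C (D.d : Om) * (hc D.A.card D.AA D.p D.q * D.q ^ 4 * D.U c)
      rw [hid]
      ring
    exact Lat_conj d (by omega) p q u w (hmax ▸ le_max_left _ _) (hmax ▸ le_max_right _ _) hud
      hwd.le hcj hL
  · right
    have hno : ∀ c : Om → Om, D.Mom c → (∀ b ∈ D.A, D.T c b = c b) → ∀ a ∈ D.A, c a = 0 := by
      intro c h1 h2 a ha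
      by_contra h3
      exact hfix ⟨c, h1, h2, a, ha, h3⟩
    have hA := D.A_const hno h0 h1 s hs hs0 hs1
    obtain ⟨u', w', r, hr, hu', hw'⟩ := D.coeff_const hA hcard
    have hu : u = C r * u'.map (algebraMap F Om) := hu'
    have hw : w = C r * w'.map (algebraMap F Om) := hw'
    have hunit : IsUnit (C r : Om[X]) := isUnit_C.mpr (IsUnit.mk0 _ hr)
    refine ⟨u', w', ?_, ?_, ?_⟩
    · rw [hu, hw, isCoprime_mul_unit_left_left hunit, isCoprime_mul_unit_left_right hunit] at huw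
      exact (Polynomial.isCoprime_map (algebraMap F Om)).mp huw
    · have e1 : u.natDegree = u'.natDegree := by
        rw [hu, natDegree_C_mul hr, natDegree_map_eq_of_injective (algebraMap F Om).injective]
      have e2 : w.natDegree = w'.natDegree := by
        rw [hw, natDegree_C_mul hr, natDegree_map_eq_of_injective (algebraMap F Om).injective]
      rw [← e1, ← e2, hwd]
      exact max_eq_right hud
    · obtain ⟨a, b, c, e, σ, hdet, hσ, hconj⟩ := hcj
      refine ⟨a, b, c, e, r⁻¹ * σ, hdet, mul_ne_zero (inv_ne_zero hr) hσ, fun Z => ?_⟩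
      have h2 := hconj Z
      rw [hu, hw, FH_C_mul] at h2
      have h3 := congrArg (fun V => r⁻¹ • V) h2
      simp only [smul_smul] at h3
      rw [inv_mul_cancel₀ hr, one_smul] at h3
      exact h3

end Pool.Agent.E8helper65.MC
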