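import Pool.Agent.E8helper65.MC.TT

/-!
# The operator and derivations
-/

set_option linter.unusedSectionVars false
set_option linter.unusedVariables false

namespace Pool.Agent.E8helper65.MC

open Polynomial Differential

variable {K : Type*} [Field K]

lemma mapCoeffs_deg [Differential K] (p : K[X]) : (mapCoeffs p).natDegree ≤ p.natDegree := by
  rw [natDegree_le_iff_coeff_eq_zero]
  intro n hn
  rw [coeff_mapCoeffs, coeff_eq_zero_of_natDegree_lt hn]
  exact Derivation.map_zero _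

namespace Dat

variable (D : Dat K)

theorem T_der [IsAlgClosed K] [CharZero K] [DecidableEq K] [Differential K] (c : K → K)
    (hm : D.Mom c) : ∑ b ∈ D.A, b′ * D.T c b = ∑ a ∈ D.A, c a * a′ := by
  set Y : K[X] := mapCoeffs D.p * D.q - D.p * mapCoeffs D.q with hY
  have hYd : Y.natDegree ≤ 2 * D.d := by
    have h1 := mapCoeffs_deg D.p
    have h2 := mapCoeffs_deg D.q
    have h3 := D.pd
    have h4 := D.qd
    refine (natDegree_sub_le _ _).trans (max_le ?_ ?_)
    · refine natDegree_mul_le.trans ?_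
      omega
    · refine natDegree_mul_le.trans ?_
      omega
  have h1 := D.key c (al Y / al D.W) (fun b => b′) (fun w => w′) (by
    intro b _ w hw
    obtain ⟨e, G, H, h1, h2, h3, h4, h5⟩ := D.loc hw
    have e1 : cst (b′) * D.F - al Y / al D.W = al (C (b′) * D.q ^ 2 - Y) / al D.W := by
      unfold F
      simp only [al, map_mul, map_sub]
      ring
    have e2 : C (b′) * D.q ^ 2 - Y = -D.q * mapCoeffs (D.M b) + mapCoeffs D.q * D.M b := by
      unfold M
      rw [map_sub, Derivation.leibniz, mapCoeffs_C]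
      simp only [smul_eq_mul, hY]
      ring
    have e3 : mapCoeffs (D.M b) = (X - C w) ^ e * (-(((e + 1 : ℕ) : K[X]) * C (w′) * G) +
        (X - C w) * mapCoeffs G) := by
      rw [h1, Derivation.leibniz, Derivation.leibniz_pow, map_sub, mapCoeffs_X, mapCoeffs_C]
      simp only [smul_eq_mul, nsmul_eq_mul, Nat.add_sub_cancel]
      ring
    have e4 : C (b′) * D.q ^ 2 - Y = (X - C w) ^ e * (-D.q * (-(((e + 1 : ℕ) : K[X]) * C (w′) * G) +
        (X - C w) * mapCoeffs G) + mapCoeffs D.q * ((X - C w) * G)) := by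
      rw [e2, e3]
      conv_lhs => rw [h1]
      ring
    rw [e1, e4, h3]
    have h6 := Rg_cancel (w := w) (L := (X - C w) ^ e) (Z := -D.q *
      (-(((e + 1 : ℕ) : K[X]) * C (w′) * G) +
        (X - C w) * mapCoeffs G) + mapCoeffs D.q * ((X - C w) * G)) (H := H)
      (pow_ne_zero _ (X_sub_C_ne_zero w)) h5
    convert h6 using 1
    rw [eq_div_iff h5, h4]
    simp only [eval_add, eval_mul, eval_neg, eval_natCast, eval_C, eval_sub, eval_X, sub_self,
      zero_mul, add_zero, mul_zero]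
    ring)
  rw [D.resY c hm Y hYd, add_zero] at h1
  exact h1

lemma R_add (c c' : K → K) : D.R (fun x => c x + c' x) = D.R c + D.R c' := by
  unfold R
  rw [← Finset.sum_add_distrib]
  refine Finset.sum_congr rfl fun a _ => ?_
  unfold cst
  rw [map_add, map_add, add_div]

lemma R_smul (t : K) (c : K → K) : D.R (fun x => t * c x) = cst t * D.R c := by
  unfold R
  rw [Finset.mul_sum]
  refine Finset.sum_congr rfl fun a _ => ?_
  unfold cst
  rw [map_mul, map_mul, mul_div_assoc]

lemma T_add [DecidableEq K] (c c' : K → K) (b : K) :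
    D.T (fun x => c x + c' x) b = D.T c b + D.T c' b := by
  unfold T
  rw [D.R_add, ← Finset.sum_add_distrib]
  refine Finset.sum_congr rfl fun w _ => ?_
  rw [add_mul, rs_add]

lemma T_smul [DecidableEq K] (t : K) (c : K → K) (b : K) :
    D.T (fun x => t * c x) b = t * D.T c b := by
  unfold T
  rw [D.R_smul, Finset.mul_sum]
  refine Finset.sum_congr rfl fun w _ => ?_
  rw [mul_assoc, rs_cst_mul]

lemma R_congr {c c' : K → K} (h : ∀ a ∈ D.A, c a = c' a) : D.R c = D.R c' := by
  unfold R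
  exact Finset.sum_congr rfl fun a ha => by rw [h a ha]

lemma T_congr [DecidableEq K] {c c' : K → K} (h : ∀ a ∈ D.A, c a = c' a) (b : K) :
    D.T c b = D.T c' b := by
  unfold T
  rw [D.R_congr h]

lemma Mom_congr {c c' : K → K} (h : ∀ a ∈ D.A, c a = c' a) (hm : D.Mom c) : D.Mom c' := by
  obtain ⟨h0, h1, h2⟩ := hm
  refine ⟨?_, ?_, ?_⟩
  · rw [← h0]
    exact Finset.sum_congr rfl fun a ha => (h a ha).symm
  · rw [← h1]
    exact Finset.sum_congr rfl fun a ha => by rw [h a ha]
  · rw [← h2]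
    exact Finset.sum_congr rfl fun a ha => by rw [h a ha]

/-- extension by zero -/
noncomputable def ex [DecidableEq K] (c : D.A → K) (x : K) : K := if h : x ∈ D.A then c ⟨x, h⟩ else 0

lemma ex_mem [DecidableEq K] (c : D.A → K) {x : K} (h : x ∈ D.A) : D.ex c x = c ⟨x, h⟩ := by
  unfold ex
  rw [dif_pos h]

lemma Mom_add {c c' : K → K} (h : D.Mom c) (h' : D.Mom c') : D.Mom fun x => c x + c' x := by
  obtain ⟨h0, h1, h2⟩ := h
  obtain ⟨h0', h1', h2'⟩ := h'
  refine ⟨?_, ?_, ?_⟩
  · rw [Finset.sum_add_distrib, h0, h0', add_zero]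
  · simp only [add_mul]
    rw [Finset.sum_add_distrib, h1, h1', add_zero]
  · simp only [add_mul]
    rw [Finset.sum_add_distrib, h2, h2', add_zero]

lemma Mom_smul (t : K) {c : K → K} (h : D.Mom c) : D.Mom fun x => t * c x := by
  obtain ⟨h0, h1, h2⟩ := h
  refine ⟨?_, ?_, ?_⟩
  · rw [← Finset.mul_sum, h0, mul_zero]
  · simp only [mul_assoc]
    rw [← Finset.mul_sum, h1, mul_zero]
  · simp only [mul_assoc]
    rw [← Finset.mul_sum, h2, mul_zero]

/-- the space of quadratic differentials -/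
noncomputable def XX [DecidableEq K] : Submodule K (D.A → K) where
  carrier := {c | D.Mom (D.ex c)}
  add_mem' := by
    intro c c' h h'
    refine D.Mom_congr ?_ (D.Mom_add h h')
    intro a ha
    rw [D.ex_mem _ ha, D.ex_mem _ ha, D.ex_mem _ ha]
    rfl
  zero_mem' := by
    have : D.Mom (fun _ : K => (0 : K)) := by
      refine ⟨?_, ?_, ?_⟩ <;> simp
    refine D.Mom_congr ?_ this
    intro a ha
    rw [D.ex_mem _ ha]
    rfl
  smul_mem' := by
    intro t c h
    refine D.Mom_congr ?_ (D.Mom_smul t h)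
    intro a ha
    rw [D.ex_mem _ ha, D.ex_mem _ ha]
    rfl

/-- the operator `1 - T` -/
noncomputable def LL [IsAlgClosed K] [CharZero K] [DecidableEq K] : D.XX →ₗ[K] D.XX where
  toFun c := ⟨fun b => c.1 b + (-1) * D.T (D.ex c.1) b, by
    have h1 : D.Mom (D.ex c.1) := c.2
    have h2 := D.Mom_add h1 (D.Mom_smul (-1) (D.T_mom _ h1))
    refine D.Mom_congr ?_ h2
    intro a ha
    rw [D.ex_mem _ ha, D.ex_mem _ ha]⟩
  map_add' := by
    intro c c'
    apply Subtype.ext
    funext b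
    have h1 : D.T (D.ex (c + c').1) b = D.T (D.ex c.1) b + D.T (D.ex c'.1) b := by
      rw [← D.T_add]
      apply D.T_congr
      intro a ha
      rw [D.ex_mem _ ha, D.ex_mem _ ha, D.ex_mem _ ha]
      rfl
    show (c + c').1 b + (-1) * D.T (D.ex (c + c').1) b =
      (c.1 b + (-1) * D.T (D.ex c.1) b) + (c'.1 b + (-1) * D.T (D.ex c'.1) b)
    rw [h1]
    show c.1 b + c'.1 b + _ = _
    ring
  map_smul' := by
    intro t c
    apply Subtype.ext
    funext b
    have h1 : D.T (D.ex (t • c).1) b = t * D.T (D.ex c.1) b := by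
      rw [← D.T_smul]
      apply D.T_congr
      intro a ha
      rw [D.ex_mem _ ha, D.ex_mem _ ha]
      rfl
    show (t • c).1 b + (-1) * D.T (D.ex (t • c).1) b = t * (c.1 b + (-1) * D.T (D.ex c.1) b)
    rw [h1]
    show t * c.1 b + _ = _
    ring

/-- **The derivation argument**: if the operator has no fixed vector, then every derivation
vanishing at three points of `A` vanishes on `A`. -/
theorem const_of_no_fixed [IsAlgClosed K] [CharZero K] [DecidableEq K]
    (hno : ∀ c : K → K, D.Mom c → (∀ b ∈ D.A, D.T c b = c b) → ∀ a ∈ D.A, c a = 0)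
    (a₁ a₂ a₃ : K) (h₁ : a₁ ∈ D.A) (h₂ : a₂ ∈ D.A) (h₃ : a₃ ∈ D.A) (h12 : a₁ ≠ a₂)
    (h13 : a₁ ≠ a₃) (h23 : a₂ ≠ a₃) [Differential K] (z1 : a₁′ = 0) (z2 : a₂′ = 0)
    (z3 : a₃′ = 0) (a : K) (ha : a ∈ D.A) : a′ = 0 := by
  have hinj : Function.Injective D.LL := by
    rw [← LinearMap.ker_eq_bot, LinearMap.ker_eq_bot']
    intro c hc
    apply Subtype.ext
    funext b
    have h1 : ∀ b : D.A, D.T (D.ex c.1) b = c.1 b := by
      intro b
      have h2 : c.1 b + (-1) * D.T (D.ex c.1) b = 0 := congrFun (congrArg Subtype.val hc) b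
      linear_combination -h2
    have h2 := hno (D.ex c.1) c.2 (by
      intro b hb
      rw [D.ex_mem _ hb]
      exact h1 ⟨b, hb⟩) b.1 b.2
    rw [D.ex_mem _ b.2] at h2
    exact h2
  have hsurj : Function.Surjective D.LL := LinearMap.injective_iff_surjective.mp hinj
  -- the functional vanishes
  have hphi : ∀ c : K → K, D.Mom c → ∑ x ∈ D.A, c x * x′ = 0 := by
    intro c hm
    have hmem : D.Mom (D.ex fun x : D.A => c x) := by
      refine D.Mom_congr ?_ hm
      intro x hx
      rw [D.ex_mem _ hx]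
    obtain ⟨c', hc'⟩ := hsurj ⟨fun x => c x, hmem⟩
    have h1 := D.T_der (D.ex c'.1) c'.2
    have h2 : ∀ x ∈ D.A, c x = D.ex c'.1 x + (-1) * D.T (D.ex c'.1) x := by
      intro x hx
      have h3 : c'.1 ⟨x, hx⟩ + (-1) * D.T (D.ex c'.1) x = c x :=
        congrFun (congrArg Subtype.val hc') ⟨x, hx⟩
      rw [D.ex_mem _ hx, h3]
    have h4 : ∑ x ∈ D.A, c x * x′ = ∑ x ∈ D.A, D.ex c'.1 x * x′ - ∑ x ∈ D.A, x′ * D.T (D.ex c'.1) x := by
      rw [← Finset.sum_sub_distrib]
      refine Finset.sum_congr rfl fun x hx => ?_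
      rw [h2 x hx]
      ring
    rw [h4, h1, sub_self]
  -- the test vector
  set l₁ := (a - a₂) * (a - a₃) / ((a₁ - a₂) * (a₁ - a₃)) with hl1
  set l₂ := (a - a₁) * (a - a₃) / ((a₂ - a₁) * (a₂ - a₃)) with hl2
  set l₃ := (a - a₁) * (a - a₂) / ((a₃ - a₁) * (a₃ - a₂)) with hl3
  set c : K → K := fun x => (if x = a then 1 else 0) - (if x = a₁ then l₁ else 0) -
    (if x = a₂ then l₂ else 0) - (if x = a₃ then l₃ else 0) with hc
  have hsum : ∀ g : K → K, ∑ x ∈ D.A, c x * g x = g a - l₁ * g a₁ - l₂ * g a₂ - l₃ * g a₃ := by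
    intro g
    simp only [hc, sub_mul, ite_mul, one_mul, zero_mul]
    rw [Finset.sum_sub_distrib, Finset.sum_sub_distrib, Finset.sum_sub_distrib,
      Finset.sum_ite_eq', Finset.sum_ite_eq', Finset.sum_ite_eq', Finset.sum_ite_eq', if_pos ha,
      if_pos h₁, if_pos h₂, if_pos h₃]
  have d12 : a₁ - a₂ ≠ 0 := sub_ne_zero.mpr h12
  have d13 : a₁ - a₃ ≠ 0 := sub_ne_zero.mpr h13
  have d23 : a₂ - a₃ ≠ 0 := sub_ne_zero.mpr h23
  have d21 : a₂ - a₁ ≠ 0 := sub_ne_zero.mpr h12.symm
  have d31 : a₃ - a₁ ≠ 0 := sub_ne_zero.mpr h13.symm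
  have d32 : a₃ - a₂ ≠ 0 := sub_ne_zero.mpr h23.symm
  have e2 : l₂ = -((a - a₁) * (a - a₃) / ((a₁ - a₂) * (a₂ - a₃))) := by
    rw [hl2, show a₂ - a₁ = -(a₁ - a₂) by ring]
    rw [neg_mul, div_neg]
  have e3 : l₃ = (a - a₁) * (a - a₂) / ((a₁ - a₃) * (a₂ - a₃)) := by
    rw [hl3, show a₃ - a₁ = -(a₁ - a₃) by ring, show a₃ - a₂ = -(a₂ - a₃) by ring, neg_mul_neg]
  have hm : D.Mom c := by
    refine ⟨?_, ?_, ?_⟩
    · have := hsum fun _ => 1
      simp only [mul_one] at this
      rw [this, hl1, e2, e3]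
      field_simp
      ring
    · rw [hsum fun x => x, hl1, e2, e3]
      field_simp
      ring
    · rw [hsum fun x => x ^ 2, hl1, e2, e3]
      field_simp
      ring
  have h5 := hphi c hm
  rw [hsum fun x => x′, z1, z2, z3] at h5
  simpa using h5

end Dat

end Pool.Agent.E8helper65.MC
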