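import Pool.Agent.E8helper65.MC.AS
import Pool.Agent.E8helper71.MC.Model

/-!
# McMullen's theorem
-/

namespace Pool.Agent.E8helper65.MC

open Polynomial
open Pool.Agent.W277.UH Pool.Agent.Y706.CH Pool.Agent.Y195.CH Pool.Agent.Y676.CH
open Pool.Agent.E8helper88.Mul
open Pool.Agent.E8helper71.MC (Lat MOne mcm_of_one pcf_model)

universe u

theorem t_MODEL : S_MODEL.{u, u} := by
  intro F Om _ _ _ _ _ _ d hd p q hco hmax hcrit
  exact pcf_model (F := F) d hd p q hco hmax hcrit

/-- **McMullen's theorem**: a rational map whose multipliers lie in an algebraically closed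
subfield is conjugate to a map over this subfield or is a flexible Lattes map -/
theorem mcM {Om : Type u} [Field Om] [IsAlgClosed Om] [CharZero Om]
    (F : Subfield Om) (hF : ∀ x : Om, IsAlgebraic F x → x ∈ F) (d : ℕ) (hd : 2 ≤ d)
    (p q : Om[X]) (hco : IsCoprime p q) (hmax : max p.natDegree q.natDegree = d)
    (hmul : ∀ n, 1 ≤ n → ∀ lam, IsMul d p q n lam → lam ∈ F) :
    Lat d p q ∨ ∃ u w : Om[X], IsCoprime u w ∧ max u.natDegree w.natDegree = d ∧
      (∀ i, u.coeff i ∈ F) ∧ (∀ i, w.coeff i ∈ F) ∧ CjF d p q u w :=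
  mcm_of_one (mone t_MODEL) F hF d hd p q hco hmax hmul

end Pool.Agent.E8helper65.MC
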