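import Pool.Agent.E8helper65.MC.FN
import Pool.Agent.E8helper88.Mul.McM1

/-!
# McMullen's theorem, in the form used by the ultraproduct argument
-/

namespace Pool.Agent.E8helper65.MC

open Polynomial
open Pool.Agent.E8helper88.Mul

universe u

theorem t_MCM : S_MCM.{u} := by
  intro Om _ _ _ F hF d hd p q hco hmax hmul
  rcases mcM F hF d hd p q hco hmax hmul with ⟨A, B, N, hA, hB, hAN, hBN, h⟩ |
    ⟨u, w, h1, h2, h3, h4, h5⟩
  · right
    refine ⟨N, A, B, hA, hB, hAN, hBN, ?_⟩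
    rw [h]
    ring
  · left
    exact ⟨u, w, fun i => ⟨h3 i, h4 i⟩, h1, h2, h5⟩

end Pool.Agent.E8helper65.MC
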