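import Pool.Agent.E8helper65.MC.NT
import Pool.Agent.E8helper65.MC.AR

/-!
# Integrability of the quadratic differentials
-/

set_option linter.unusedSectionVars false
set_option linter.unusedVariables false

open MeasureTheory Complex Topology Filter Polynomial Metric Set
open scoped ENNReal

namespace Pool.Agent.E8helper65.MC

lemma intOn_inv (a : ℂ) (R : ℝ) : IntegrableOn (fun z : ℂ => ‖z - a‖⁻¹) (ball 0 R) volume := by
  have h1 : IntegrableOn (fun w : ℂ => (‖w‖)⁻¹) (ball 0 (R + ‖a‖ + 1)) volume := by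
    refine (integrableOn_fun_norm_addHaar (volume : Measure ℂ) (f := fun r : ℝ => r⁻¹)).2 ?_
    rw [Complex.finrank_real_complex]
    have : IntegrableOn (fun _ : ℝ => (1 : ℝ)) (Ioo 0 (R + ‖a‖ + 1)) := by
      refine integrableOn_const ?_
      simp
    refine this.congr_fun ?_ measurableSet_Ioo
    intro y hy
    have : y ≠ 0 := hy.1.ne'
    simp [this]
  have h2 := (integrable_indicator_iff (measurableSet_ball)).mpr h1
  have h3 := h2.comp_sub_right a
  have h4 := h3.integrableOn (s := ball (0 : ℂ) R)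
  refine h4.congr_fun ?_ measurableSet_ball
  intro z hz
  simp only
  rw [Set.indicator_of_mem]
  rw [mem_ball_zero_iff] at hz ⊢
  have := norm_sub_le z a
  linarith

namespace Dat

variable (D : Dat ℂ)

lemma Rv_meas (c : ℂ → ℂ) : Measurable (D.Rv c) := by
  unfold Rv
  apply Finset.measurable_fun_sum
  intro a _
  fun_prop

lemma Rv_far (c : ℂ → ℂ) (hm : D.Mom c) (z : ℂ) (hz0 : z ≠ 0) (hz : z ∉ D.A) :
    D.Rv c z = (∑ a ∈ D.A, c a * a ^ 3 / (z - a)) / z ^ 3 := by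
  obtain ⟨h0, h1, h2⟩ := hm
  have h3 : D.Rv c z - (∑ a ∈ D.A, c a * a ^ 3 / (z - a)) / z ^ 3 =
      (∑ a ∈ D.A, c a) / z + (∑ a ∈ D.A, c a * a) / z ^ 2 + (∑ a ∈ D.A, c a * a ^ 2) / z ^ 3 := by
    unfold Rv
    rw [Finset.sum_div, Finset.sum_div, Finset.sum_div, Finset.sum_div, ← Finset.sum_sub_distrib,
      ← Finset.sum_add_distrib, ← Finset.sum_add_distrib]
    refine Finset.sum_congr rfl fun a ha => ?_
    have hza : z - a ≠ 0 := by
      rw [sub_ne_zero]
      rintro rfl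
      exact hz ha
    field_simp
    ring
  rw [h0, h1, h2] at h3
  simp only [zero_div, add_zero] at h3
  exact sub_eq_zero.mp h3

lemma Rv_int (c : ℂ → ℂ) (hm : D.Mom c) : Integrable (D.Rv c) volume := by
  classical
  set ρ : ℝ := 1 + 2 * ∑ a ∈ D.A, ‖a‖ with hρ
  have hsum0 : 0 ≤ ∑ a ∈ D.A, ‖a‖ := Finset.sum_nonneg fun a _ => norm_nonneg a
  have hle : ∀ a ∈ D.A, ‖a‖ ≤ ∑ a ∈ D.A, ‖a‖ := fun a ha =>
    Finset.single_le_sum (f := fun a => ‖a‖) (fun a _ => norm_nonneg a) ha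
  -- the near part
  have hnear : IntegrableOn (D.Rv c) (ball 0 ρ) volume := by
    have h1 : IntegrableOn (fun z => ∑ a ∈ D.A, ‖c a‖ * ‖z - a‖⁻¹) (ball 0 ρ) volume := by
      unfold IntegrableOn
      apply integrable_finsetSum
      intro a _
      exact (intOn_inv a ρ).const_mul _
    refine h1.mono' (D.Rv_meas c).aestronglyMeasurable ?_
    refine Filter.Eventually.of_forall fun z => ?_
    unfold Rv
    refine (norm_sum_le _ _).trans (le_of_eq ?_)
    refine Finset.sum_congr rfl fun a _ => ?_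
    rw [norm_div, div_eq_mul_inv]
  -- the far part
  have hfar : IntegrableOn (D.Rv c) (ball 0 ρ)ᶜ volume := by
    have h1 : Integrable (fun z : ℂ => (1 + ‖z‖) ^ (-(3 : ℝ))) volume := by
      apply integrable_one_add_norm
      rw [Complex.finrank_real_complex]
      norm_num
    have h2 := (h1.const_mul (16 * ∑ a ∈ D.A, ‖c a * a ^ 3‖)).integrableOn (s := (ball (0 : ℂ) ρ)ᶜ)
    refine h2.mono' (D.Rv_meas c).aestronglyMeasurable ?_
    refine (ae_restrict_iff' measurableSet_ball.compl).mpr (Filter.Eventually.of_forall ?_)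
    intro z hz
    rw [mem_compl_iff, mem_ball_zero_iff, not_lt] at hz
    have hz1 : 1 ≤ ‖z‖ := by linarith
    have hz0 : z ≠ 0 := norm_pos_iff.mp (by linarith)
    have hza : ∀ a ∈ D.A, ‖z‖ / 2 ≤ ‖z - a‖ := by
      intro a ha
      have h3 := hle a ha
      have h4 := norm_sub_norm_le z a
      linarith
    have hzA : z ∉ D.A := by
      intro h
      have := hza z h
      rw [sub_self, norm_zero] at this
      linarith
    rw [D.Rv_far c hm z hz0 hzA, norm_div, norm_pow]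
    have h5 : ‖∑ a ∈ D.A, c a * a ^ 3 / (z - a)‖ ≤ 2 * ∑ a ∈ D.A, ‖c a * a ^ 3‖ := by
      refine (norm_sum_le _ _).trans ?_
      rw [Finset.mul_sum]
      apply Finset.sum_le_sum
      intro a ha
      rw [norm_div]
      have h6 := hza a ha
      have h7 : (1 : ℝ) / 2 ≤ ‖z - a‖ := by linarith
      rw [div_le_iff₀ (by linarith)]
      nlinarith [norm_nonneg (c a * a ^ 3)]
    have h8 : (1 + ‖z‖) ^ (-(3 : ℝ)) = ((1 + ‖z‖) ^ 3)⁻¹ := by
      rw [Real.rpow_neg (by positivity)]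
      norm_num
    rw [h8, div_le_iff₀ (by positivity)]
    have h9 : (1 + ‖z‖) ^ 3 ≤ 8 * ‖z‖ ^ 3 := by
      have : 1 + ‖z‖ ≤ 2 * ‖z‖ := by linarith
      calc (1 + ‖z‖) ^ 3 ≤ (2 * ‖z‖) ^ 3 := pow_le_pow_left₀ (by positivity) this 3
        _ = 8 * ‖z‖ ^ 3 := by ring
    have h10 : (1 : ℝ) / 8 ≤ ((1 + ‖z‖) ^ 3)⁻¹ * ‖z‖ ^ 3 := by
      rw [← div_eq_inv_mul, div_le_div_iff₀ (by norm_num) (by positivity)]
      linarith
    have h11 : 0 ≤ ∑ a ∈ D.A, ‖c a * a ^ 3‖ := Finset.sum_nonneg fun a _ => norm_nonneg _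
    calc ‖∑ a ∈ D.A, c a * a ^ 3 / (z - a)‖ ≤ 2 * ∑ a ∈ D.A, ‖c a * a ^ 3‖ := h5
      _ = 16 * (∑ a ∈ D.A, ‖c a * a ^ 3‖) * (1 / 8) := by ring
      _ ≤ 16 * (∑ a ∈ D.A, ‖c a * a ^ 3‖) * (((1 + ‖z‖) ^ 3)⁻¹ * ‖z‖ ^ 3) :=
        mul_le_mul_of_nonneg_left h10 (by positivity)
      _ = _ := by ring
  have := hnear.union hfar
  rwa [union_compl_self, integrableOn_univ] at this

end Dat

end Pool.Agent.E8helper65.MC
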