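import Pool.Agent.E8helper65.MC.L1a

/-!
# The norm argument
-/

set_option linter.unusedSectionVars false
set_option linter.unusedVariables false

open MeasureTheory Complex Topology Filter Polynomial Metric Set
open scoped ENNReal ComplexConjugate

namespace Pool.Agent.E8helper65.MC

lemma null_roots {P : ℂ[X]} (hP : P ≠ 0) : volume {w : ℂ | P.eval w = 0} = 0 := by
  have h : {w : ℂ | P.eval w = 0} ⊆ (P.roots.toFinset : Set ℂ) := by
    intro w hw
    rw [Finset.mem_coe, Multiset.mem_toFinset, mem_roots hP]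
    exact hw
  exact measure_mono_null h ((P.roots.toFinset.finite_toSet).measure_zero volume)

/-- equality in the triangle inequality -/
lemma real_of_norm_sum {ι : Type*} (s : Finset ι) (t : ι → ℂ)
    (h : ∑ i ∈ s, ‖t i‖ = ‖∑ i ∈ s, t i‖) (i : ι) (hi : i ∈ s) :
    (t i * conj (∑ j ∈ s, t j)).im = 0 := by
  set S := ∑ j ∈ s, t j with hS
  have h1 : ∀ j ∈ s, (t j * conj S).re ≤ ‖t j * conj S‖ := fun j _ => Complex.re_le_norm _
  have h2 : ∑ j ∈ s, (t j * conj S).re = ∑ j ∈ s, ‖t j * conj S‖ := by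
    rw [← Complex.re_sum, ← Finset.sum_mul, ← hS, Complex.mul_conj, Complex.normSq_eq_norm_sq]
    simp only [norm_mul, RCLike.norm_conj]
    rw [← Finset.sum_mul, h, Complex.ofReal_re]
    ring
  have h3 := (Finset.sum_eq_sum_iff_of_le h1).mp h2 i hi
  have h4 := Complex.sq_norm_sub_sq_re (t i * conj S)
  rw [← h3, sub_self] at h4
  exact pow_eq_zero_iff (two_ne_zero) |>.mp h4.symm

namespace Dat

variable (D : Dat ℂ)

/-- the map -/
noncomputable def f (w : ℂ) : ℂ := D.p.eval w / D.q.eval w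

/-- the image of infinity -/
noncomputable def fi : ℂ := D.p.coeff D.d / D.q.coeff D.d

/-- the exceptional polynomial -/
noncomputable def Ex : ℂ[X] := D.q * (∏ b ∈ D.A, D.M b) * D.M D.fi

lemma Ex_ne : D.Ex ≠ 0 :=
  mul_ne_zero (mul_ne_zero D.q_ne (Finset.prod_ne_zero_iff.mpr fun b _ => D.M_ne b)) (D.M_ne _)

/-- the good set -/
def Gs : Set ℂ := {w | D.Ex.eval w ≠ 0}

lemma Gs_open : IsOpen D.Gs := isOpen_ne_fun D.Ex.continuous continuous_const

lemma Gs_ae : ∀ᵐ w ∂(volume : Measure ℂ), w ∈ D.Gs := by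
  rw [ae_iff]
  convert null_roots D.Ex_ne using 2
  ext w
  simp [Gs]

lemma mem_Gs {w : ℂ} : w ∈ D.Gs ↔ D.q.eval w ≠ 0 ∧ D.f w ∉ D.A ∧ D.f w ≠ D.fi := by
  unfold Gs Ex
  rw [mem_setOf_eq, eval_mul, eval_mul, eval_prod, mul_ne_zero_iff, mul_ne_zero_iff,
    Finset.prod_ne_zero_iff]
  constructor
  · rintro ⟨⟨h1, h2⟩, h3⟩
    refine ⟨h1, ?_, ?_⟩
    · intro h
      exact h2 _ h (D.M_eval_of h1 rfl)
    · intro h
      exact h3 (D.M_eval_of h1 h)
  · rintro ⟨h1, h2, h3⟩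
    refine ⟨⟨h1, ?_⟩, ?_⟩
    · intro b hb h
      exact h2 (by rw [show D.f w = b from D.val h]; exact hb)
    · intro h
      exact h3 (D.val h)

lemma W_ne_Gs {w : ℂ} (h : w ∈ D.Gs) : D.W.eval w ≠ 0 := by
  intro h0
  exact ((D.mem_Gs).mp h).2.1 (D.cr w h0).2

lemma nA_Gs {w : ℂ} (h : w ∈ D.Gs) : w ∉ D.A := fun h0 => ((D.mem_Gs).mp h).2.1 (D.fw w h0).2

lemma fib_Gs {w z : ℂ} (hz : z ∉ D.A) (hz' : z ≠ D.fi) :
    (w ∈ D.Gs ∧ D.f w = z) ↔ w ∈ D.fib z := by
  classical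
  rw [mem_fib]
  constructor
  · rintro ⟨h1, h2⟩
    exact D.M_eval_of ((D.mem_Gs).mp h1).1 h2
  · intro h
    have h1 : D.f w = z := D.val h
    refine ⟨(D.mem_Gs).mpr ⟨D.q_eval_ne h, by rw [h1]; exact hz, by rw [h1]; exact hz'⟩, h1⟩

lemma f_meas : Measurable D.f := by
  unfold f
  exact D.p.continuous.measurable.div D.q.continuous.measurable

lemma f_deriv {w : ℂ} (h : D.q.eval w ≠ 0) :
    HasDerivAt D.f (D.W.eval w / D.q.eval w ^ 2) w := by
  have h1 := (D.p.hasDerivAt w).div (D.q.hasDerivAt w) h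
  have h2 : D.W.eval w = (derivative D.p).eval w * D.q.eval w -
      D.p.eval w * (derivative D.q).eval w := by
    unfold W Wr
    simp
  rw [h2]
  exact h1

lemma f_diff : DifferentiableOn ℂ D.f D.Gs := fun w hw =>
  (D.f_deriv ((D.mem_Gs).mp hw).1).differentiableAt.differentiableWithinAt

/-- the terms of the push forward -/
noncomputable def tm (c : ℂ → ℂ) (w : ℂ) : ℂ := D.Rv c w * D.q.eval w ^ 4 / D.W.eval w ^ 2

lemma tm_meas (c : ℂ → ℂ) : Measurable (D.tm c) := by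
  unfold tm
  exact ((D.Rv_meas c).mul (D.q.continuous.measurable.pow_const 4)).div
    (D.W.continuous.measurable.pow_const 2)

lemma mult_fib (g : ℂ → ℝ≥0∞) {z : ℂ} (hz : z ∉ D.A) (hz' : z ≠ D.fi) :
    mult D.Gs D.f g z = ∑ w ∈ D.fib z, g w := by
  classical
  unfold mult
  rw [← Finset.tsum_subtype]
  exact tsum_congr_set_coe g (s := {w | w ∈ D.Gs ∧ D.f w = z}) (t := {w | w ∈ D.fib z}) (by
    ext w
    exact D.fib_Gs hz hz')

/-- equality almost everywhere in the triangle inequality -/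
lemma ae_real (c : ℂ → ℂ) (hm : D.Mom c) (hT : ∀ b ∈ D.A, D.T c b = c b) :
    ∀ᵐ z ∂(volume : Measure ℂ), z ∉ D.A ∧ z ≠ D.fi ∧
      ∑ w ∈ D.fib z, ‖D.tm c w‖ = ‖D.Rv c z‖ := by
  classical
  set g : ℂ → ℝ≥0∞ := fun w => ENNReal.ofReal ‖D.tm c w‖ with hg
  have hgm : Measurable g := (D.tm_meas c).norm.ennreal_ofReal
  obtain ⟨hae, harea⟩ := area_lintegral D.Gs D.Gs_open D.f D.f_diff g hgm
  have hint : ∫⁻ z in D.Gs, ENNReal.ofReal (‖deriv D.f z‖ ^ 2) * g z =
      ∫⁻ z, ENNReal.ofReal ‖D.Rv c z‖ := by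
    have h1 : ∫⁻ z in D.Gs, ENNReal.ofReal (‖deriv D.f z‖ ^ 2) * g z =
        ∫⁻ z in D.Gs, ENNReal.ofReal ‖D.Rv c z‖ := by
      refine setLIntegral_congr_fun D.Gs_open.measurableSet fun w hw => ?_
      have hq := ((D.mem_Gs).mp hw).1
      have hW := D.W_ne_Gs hw
      simp only [hg]
      rw [← ENNReal.ofReal_mul (by positivity), (D.f_deriv hq).deriv]
      congr 1
      unfold tm
      rw [← norm_pow, ← norm_mul]
      congr 1
      field_simp
    rw [h1]
    have h2 : (volume : Measure ℂ).restrict D.Gs = volume := by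
      rw [Measure.restrict_eq_self_of_ae_mem D.Gs_ae]
    rw [h2]
  have hfin : ∫⁻ z, ENNReal.ofReal ‖D.Rv c z‖ ≠ ⊤ := by
    have := (D.Rv_int c hm).hasFiniteIntegral
    rw [hasFiniteIntegral_iff_norm] at this
    exact this.ne
  have hbad : ∀ᵐ z ∂(volume : Measure ℂ), z ∉ D.A ∧ z ≠ D.fi := by
    have h1 : ∀ᵐ z ∂(volume : Measure ℂ), z ∉ (D.A : Set ℂ) :=
      compl_mem_ae_iff.mpr ((Finset.finite_toSet _).measure_zero _)
    filter_upwards [h1, Measure.ae_ne volume D.fi] with z h2 h3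
    exact ⟨h2, h3⟩
  have hmult : ∀ z, z ∉ D.A → z ≠ D.fi →
      mult D.Gs D.f g z = ENNReal.ofReal (∑ w ∈ D.fib z, ‖D.tm c w‖) := by
    intro z h1 h2
    rw [D.mult_fib g h1 h2, ENNReal.ofReal_sum_of_nonneg fun w _ => norm_nonneg _]
  have hpush : ∀ z, z ∉ D.A → z ≠ D.fi → ∑ w ∈ D.fib z, D.tm c w = D.Rv c z := by
    intro z h1 h2
    have h3 := D.push c hm z h1 h2
    unfold tm
    rw [h3]
    unfold Rv
    exact Finset.sum_congr rfl fun b hb => by rw [hT b hb]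
  have hle : (fun z => ENNReal.ofReal ‖D.Rv c z‖) ≤ᵐ[volume] mult D.Gs D.f g := by
    filter_upwards [hbad] with z hz
    rw [hmult z hz.1 hz.2, ← hpush z hz.1 hz.2]
    exact ENNReal.ofReal_le_ofReal (norm_sum_le _ _)
  have heq := ae_eq_of_ae_le_of_lintegral_le hle hfin hae (by rw [← harea, hint])
  filter_upwards [heq, hbad] with z h1 h2
  refine ⟨h2.1, h2.2, ?_⟩
  rw [hmult z h2.1 h2.2] at h1
  have h3 := (ENNReal.ofReal_eq_ofReal_iff (norm_nonneg _)
    (Finset.sum_nonneg fun w _ => norm_nonneg _)).mp h1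
  exact h3.symm

/-- the preimage of a null set is null -/
lemma ae_pull {P : ℂ → Prop} (h : ∀ᵐ z ∂(volume : Measure ℂ), P z) :
    ∀ᵐ w ∂(volume : Measure ℂ), P (D.f w) := by
  classical
  set N := toMeasurable volume {z : ℂ | ¬ P z} with hN
  have hN0 : volume N = 0 := by
    rw [hN, measure_toMeasurable]
    exact h
  have hNm : MeasurableSet N := measurableSet_toMeasurable _ _
  set g : ℂ → ℝ≥0∞ := (D.f ⁻¹' N).indicator fun _ => 1 with hg
  have hgm : Measurable g := measurable_const.indicator (D.f_meas hNm)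
  obtain ⟨hae, harea⟩ := area_lintegral D.Gs D.Gs_open D.f D.f_diff g hgm
  have h0 : ∫⁻ x, mult D.Gs D.f g x = 0 := by
    rw [lintegral_eq_zero_iff' hae]
    have h1 : ∀ᵐ x ∂(volume : Measure ℂ), x ∉ N := compl_mem_ae_iff.mpr hN0
    filter_upwards [h1] with x hx
    unfold mult
    rw [Pi.zero_apply, ENNReal.tsum_eq_zero]
    rintro ⟨w, _, hw⟩
    rw [hg, Set.indicator_of_notMem]
    rw [mem_preimage, hw]
    exact hx
  rw [h0] at harea
  have hJm : Measurable fun z => ENNReal.ofReal (‖deriv D.f z‖ ^ 2) * g z :=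
    (((measurable_deriv D.f).norm.pow_const 2).ennreal_ofReal).mul hgm
  rw [lintegral_eq_zero_iff hJm] at harea
  have h2 : (volume : Measure ℂ).restrict D.Gs = volume := by
    rw [Measure.restrict_eq_self_of_ae_mem D.Gs_ae]
  rw [h2] at harea
  filter_upwards [harea, D.Gs_ae] with w h3 h4
  by_contra hP
  have hwN : w ∈ D.f ⁻¹' N := subset_toMeasurable _ _ hP
  have hq := ((D.mem_Gs).mp h4).1
  have hW := D.W_ne_Gs h4
  rw [hg, Pi.zero_apply, Set.indicator_of_mem hwN, mul_one, ENNReal.ofReal_eq_zero,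
    (D.f_deriv hq).deriv] at h3
  have h5 : 0 < ‖D.W.eval w / D.q.eval w ^ 2‖ ^ 2 := by
    have : D.W.eval w / D.q.eval w ^ 2 ≠ 0 := div_ne_zero hW (pow_ne_zero _ hq)
    positivity
  linarith

end Dat

end Pool.Agent.E8helper65.MC
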