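import Pool.Agent.E8helper65.MC.L1b

/-!
# The norm argument: conclusion
-/

set_option linter.unusedSectionVars false
set_option linter.unusedVariables false

open MeasureTheory Complex Topology Filter Polynomial Metric Set
open scoped ENNReal ComplexConjugate

namespace Pool.Agent.E8helper65.MC

/-- `q ^ n * A (p / q)` -/
noncomputable def hm {K : Type*} [Field K] (n : ℕ) (A p q : K[X]) : K[X] :=
  ∑ i ∈ Finset.range (n + 1), C (A.coeff i) * p ^ i * q ^ (n - i)

lemma hm_eval {K : Type*} [Field K] (n : ℕ) (A p q : K[X]) (hA : A.natDegree ≤ n) (w : K)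
    (hq : q.eval w ≠ 0) : (hm n A p q).eval w = q.eval w ^ n * A.eval (p.eval w / q.eval w) := by
  unfold hm
  rw [eval_finsetSum, eval_eq_sum_range' (Nat.lt_succ_of_le hA), Finset.mul_sum]
  refine Finset.sum_congr rfl fun i hi => ?_
  have hi' : i ≤ n := Nat.lt_succ_iff.mp (Finset.mem_range.mp hi)
  rw [eval_mul, eval_mul, eval_C, eval_pow, eval_pow, div_pow]
  have h1 : q.eval w ^ n = q.eval w ^ i * q.eval w ^ (n - i) := by
    rw [← pow_add, Nat.add_sub_cancel' hi']
  rw [h1]
  field_simp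

/-- a quotient of polynomials which is real is constant -/
lemma const_of_real (N1 N2 : ℂ[X]) (hN2 : N2 ≠ 0)
    (h : ∀ w : ℂ, (N1.eval w * conj (N2.eval w)).im = 0) : ∃ κ : ℂ, N1 = C κ * N2 := by
  obtain ⟨w₀, hw₀⟩ : ∃ w₀ : ℂ, N2.eval w₀ ≠ 0 := by
    by_contra hcon
    push Not at hcon
    exact hN2 (Polynomial.funext fun x => by rw [hcon x, eval_zero])
  have hopen : IsOpen {w : ℂ | N2.eval w ≠ 0} := isOpen_ne_fun N2.continuous continuous_const
  obtain ⟨r, hr, hball⟩ := Metric.isOpen_iff.mp hopen w₀ hw₀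
  set g : ℂ → ℂ := fun w => N1.eval w / N2.eval w with hg
  have hreal : ∀ w ∈ ball w₀ r, (g w).im = 0 := by
    intro w hw
    have h2 : N2.eval w ≠ 0 := hball hw
    have h3 : g w = (N1.eval w * conj (N2.eval w)) / (normSq (N2.eval w) : ℂ) := by
      rw [← Complex.mul_conj, hg]
      have h4 : conj (N2.eval w) ≠ 0 := (_root_.map_ne_zero _).mpr h2
      field_simp
    rw [h3, Complex.div_ofReal_im, h w, zero_div]
  have hdiff : DifferentiableOn ℂ g (ball w₀ r) := fun w hw =>
    ((N1.differentiable w).div (N2.differentiable w) (hball hw)).differentiableWithinAt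
  have han : AnalyticOnNhd ℂ g (ball w₀ r) := hdiff.analyticOnNhd isOpen_ball
  have hconst : ∃ κ, ∀ z ∈ ball w₀ r, g z = κ := by
    rcases han.is_constant_or_isOpen (convex_ball w₀ r).isPreconnected with h1 | h1
    · exact h1
    · exfalso
      have h2 := h1 (ball w₀ r) subset_rfl isOpen_ball
      obtain ⟨ε, hε, h3⟩ := Metric.isOpen_iff.mp h2 (g w₀) ⟨w₀, mem_ball_self hr, rfl⟩
      have h4 : g w₀ + (ε / 2 : ℝ) * I ∈ ball (g w₀) ε := by
        rw [mem_ball, dist_eq_norm, add_sub_cancel_left, norm_mul, norm_I, mul_one,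
          Complex.norm_real, Real.norm_eq_abs, abs_of_pos (by positivity)]
        linarith
      obtain ⟨w, hw, hw'⟩ := h3 h4
      have h5 := hreal w hw
      rw [hw', Complex.add_im, hreal w₀ (mem_ball_self hr)] at h5
      simp at h5
      linarith
  obtain ⟨κ, hκ⟩ := hconst
  refine ⟨κ, ?_⟩
  apply Polynomial.eq_of_infinite_eval_eq
  apply Set.Infinite.mono (s := ball w₀ r)
  · intro w hw
    have h1 := hκ w hw
    rw [hg] at h1
    simp only at h1
    rw [div_eq_iff (hball hw)] at h1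
    show N1.eval w = (C κ * N2).eval w
    rw [eval_mul, eval_C, h1]
  · exact infinite_of_mem_nhds w₀ (ball_mem_nhds w₀ hr)

namespace Dat

variable (D : Dat ℂ)

lemma card_fib {z : ℂ} (hz : z ∉ D.A) (hz' : z ≠ D.fi) : (D.fib z).card = D.d := by
  classical
  have h1 : (D.M z).roots.Nodup := by
    rw [Multiset.nodup_iff_count_le_one]
    intro w
    rw [count_roots]
    by_contra hcon
    push Not at hcon
    obtain ⟨h2, h3⟩ := (one_lt_rootMultiplicity_iff_isRoot (D.M_ne z)).mp hcon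
    have h4 := (D.fib_Gs hz hz').mpr (D.mem_fib.mpr h2)
    apply D.W_ne_Gs h4.1
    have hW : D.W = D.q * derivative (D.M z) - derivative D.q * D.M z := by
      unfold W Wr M
      simp only [derivative_sub, derivative_mul, derivative_C]
      ring
    rw [hW, eval_sub, eval_mul, eval_mul, h2.eq_zero, h3.eq_zero, mul_zero, mul_zero, sub_zero]
  unfold fib
  rw [Multiset.toFinset_card_of_nodup h1, ← (IsAlgClosed.splits (D.M z)).natDegree_eq_card_roots]
  exact D.M_deg hz'

/-- **The norm argument**: a fixed vector of the push forward is an eigenvector of the pull back. -/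
theorem lat_of_fixed (c : ℂ → ℂ) (hmo : D.Mom c) (hT : ∀ b ∈ D.A, D.T c b = c b)
    (hU : D.U c ≠ 0) :
    hm D.A.card (D.U c) D.p D.q * D.W ^ 2 * D.AA =
      C (D.d : ℂ) * D.U c * D.q ^ 4 * hm D.A.card D.AA D.p D.q := by
  classical
  set n := D.A.card with hn
  have hUd : (D.U c).natDegree ≤ n := by
    rcases D.U_deg' c hmo with h | h
    · exact absurd h hU
    · omega
  have hAd : D.AA.natDegree ≤ n := D.AA_deg.le
  set N1 : ℂ[X] := D.U c * D.q ^ 4 * hm n D.AA D.p D.q with hN1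
  set N2 : ℂ[X] := D.W ^ 2 * hm n (D.U c) D.p D.q * D.AA with hN2
  -- values
  have hRv : ∀ w, w ∉ D.A → D.Rv c w = (D.U c).eval w / D.AA.eval w := by
    intro w hw
    have hA : D.AA.eval w ≠ 0 := by
      unfold AA
      rw [eval_prod, Finset.prod_ne_zero_iff]
      intro a ha
      rw [eval_sub, eval_X, eval_C, sub_ne_zero]
      rintro rfl
      exact hw ha
    rw [eq_div_iff hA]
    unfold Rv U AA
    rw [eval_prod, Finset.sum_mul, eval_finsetSum]
    refine Finset.sum_congr rfl fun a ha => ?_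
    rw [eval_mul, eval_C, eval_prod, ← Finset.mul_prod_erase D.A _ ha, eval_sub, eval_X, eval_C]
    have hwa : w - a ≠ 0 := by
      rw [sub_ne_zero]
      rintro rfl
      exact hw ha
    field_simp
  have hAA : ∀ w, w ∉ D.A → D.AA.eval w ≠ 0 := by
    intro w hw
    unfold AA
    rw [eval_prod, Finset.prod_ne_zero_iff]
    intro a ha
    rw [eval_sub, eval_X, eval_C, sub_ne_zero]
    rintro rfl
    exact hw ha
  -- the quotient is real almost everywhere
  have hrel : ∀ w ∈ D.Gs, N1.eval w * conj (N2.eval w) =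
      (D.tm c w * conj (D.Rv c (D.f w))) *
        ((normSq (D.AA.eval w * D.W.eval w ^ 2) * normSq ((hm n D.AA D.p D.q).eval w) : ℝ) : ℂ) := by
    intro w hw
    obtain ⟨h1, h2, h3⟩ := (D.mem_Gs).mp hw
    have hW := D.W_ne_Gs hw
    have hwA := D.nA_Gs hw
    have e1 : (hm n D.AA D.p D.q).eval w ≠ 0 := by
      rw [hm_eval n _ _ _ hAd w h1]
      exact mul_ne_zero (pow_ne_zero _ h1) (hAA _ h2)
    have e2 : D.Rv c (D.f w) = (hm n (D.U c) D.p D.q).eval w / (hm n D.AA D.p D.q).eval w := by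
      rw [hm_eval n _ _ _ hUd w h1, hm_eval n _ _ _ hAd w h1, hRv _ h2]
      show (D.U c).eval (D.p.eval w / D.q.eval w) / D.AA.eval (D.p.eval w / D.q.eval w) = _
      have h4 : D.AA.eval (D.p.eval w / D.q.eval w) ≠ 0 := hAA _ h2
      field_simp
    have e3 : D.tm c w = (D.U c).eval w * D.q.eval w ^ 4 / (D.AA.eval w * D.W.eval w ^ 2) := by
      unfold tm
      rw [hRv _ hwA]
      have h4 := hAA _ hwA
      field_simp
    have h5 := hAA _ hwA
    have h6 : conj ((hm n D.AA D.p D.q).eval w) ≠ 0 := (_root_.map_ne_zero _).mpr e1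
    have h7 : conj (D.AA.eval w) ≠ 0 := (_root_.map_ne_zero _).mpr h5
    have h8 : conj (D.W.eval w) ≠ 0 := (_root_.map_ne_zero _).mpr hW
    rw [e2, e3, hN1, hN2, Complex.ofReal_mul, ← Complex.mul_conj, ← Complex.mul_conj]
    simp only [eval_mul, eval_pow, map_mul, map_pow, map_div₀]
    field_simp
  have hae : ∀ᵐ w ∂(volume : Measure ℂ), (N1.eval w * conj (N2.eval w)).im = 0 := by
    filter_upwards [D.ae_pull (D.ae_real c hmo hT), D.Gs_ae] with w h1 h2
    obtain ⟨h3, h4, h5⟩ := h1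
    have h6 : w ∈ D.fib (D.f w) := (D.fib_Gs h3 h4).mp ⟨h2, rfl⟩
    have h7 : ∑ w' ∈ D.fib (D.f w), D.tm c w' = D.Rv c (D.f w) := by
      have h8 := D.push c hmo (D.f w) h3 h4
      unfold tm
      rw [h8]
      unfold Rv
      exact Finset.sum_congr rfl fun b hb => by rw [hT b hb]
    have h8 := real_of_norm_sum (D.fib (D.f w)) (D.tm c) (by rw [h7]; exact h5) w h6
    rw [h7] at h8
    rw [hrel w h2, Complex.im_mul_ofReal, h8, zero_mul]
  have hcont : Continuous fun w : ℂ => (N1.eval w * conj (N2.eval w)).im :=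
    Complex.continuous_im.comp (N1.continuous.mul (Complex.continuous_conj.comp N2.continuous))
  have hall : ∀ w : ℂ, (N1.eval w * conj (N2.eval w)).im = 0 := by
    have h1 := (hcont.ae_eq_iff_eq volume continuous_const).mp hae
    intro w
    exact congrFun h1 w
  have hpt : ∀ P : ℂ[X], P ≠ 0 → ∃ z, z ∉ D.A ∧ z ≠ D.fi ∧ P.eval z ≠ 0 := by
    intro P hP
    obtain ⟨z, hz⟩ := Infinite.exists_notMem_finset (D.A ∪ {D.fi} ∪ P.roots.toFinset)
    rw [Finset.mem_union, Finset.mem_union, not_or, not_or, Finset.mem_singleton,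
      Multiset.mem_toFinset, mem_roots hP] at hz
    exact ⟨z, hz.1.1, hz.1.2, hz.2⟩
  have hne : ∀ z, z ∉ D.A → z ≠ D.fi → (D.fib z).Nonempty := by
    intro z h1 h2
    rw [← Finset.card_pos, D.card_fib h1 h2]
    have := D.hd
    omega
  have hmne : ∀ P : ℂ[X], P ≠ 0 → P.natDegree ≤ n → hm n P D.p D.q ≠ 0 := by
    intro P hP hPd h0
    obtain ⟨z, h1, h2, h3⟩ := hpt P hP
    obtain ⟨w, hw⟩ := hne z h1 h2
    have h4 := (D.fib_Gs h1 h2).mpr hw
    have h5 := ((D.mem_Gs).mp h4.1).1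
    have h6 := hm_eval n P D.p D.q hPd w h5
    rw [h0, eval_zero] at h6
    rcases mul_eq_zero.mp h6.symm with h7 | h7
    · exact pow_ne_zero _ h5 h7
    · apply h3
      rw [← h4.2]
      exact h7
  have hN2ne : N2 ≠ 0 := mul_ne_zero (mul_ne_zero (pow_ne_zero _ D.W_ne) (hmne _ hU hUd))
    D.AA_monic.ne_zero
  obtain ⟨κ, hκ⟩ := const_of_real N1 N2 hN2ne hall
  -- the value of the constant
  obtain ⟨z, h1, h2, h3⟩ := hpt _ hU
  have hRz : D.Rv c z ≠ 0 := by
    rw [hRv z h1]
    exact div_ne_zero h3 (hAA z h1)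
  have hterm : ∀ w ∈ D.fib z, D.tm c w = κ * D.Rv c z := by
    intro w hw
    have h4 := (D.fib_Gs h1 h2).mpr hw
    have hz := h4.2
    have hwG := h4.1
    obtain ⟨g1, g2, g3⟩ := (D.mem_Gs).mp hwG
    have hW := D.W_ne_Gs hwG
    have hwA := D.nA_Gs hwG
    have e0 := congrArg (Polynomial.eval w) hκ
    have e1 : (hm n D.AA D.p D.q).eval w = D.q.eval w ^ n * D.AA.eval z := by
      rw [hm_eval n _ _ _ hAd w g1, ← hz]
      rfl
    have e2 : (hm n (D.U c) D.p D.q).eval w = D.q.eval w ^ n * (D.U c).eval z := by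
      rw [hm_eval n _ _ _ hUd w g1, ← hz]
      rfl
    rw [hN1, hN2, eval_mul, eval_mul, eval_mul, eval_C, eval_mul, eval_mul, e1, e2, eval_pow,
      eval_pow] at e0
    unfold tm
    rw [hRv w hwA, hRv z h1]
    have e3 := hAA _ hwA
    have e4 := hAA _ h1
    have e5 : D.q.eval w ^ n ≠ 0 := pow_ne_zero _ g1
    have e6 : D.W.eval w ^ 2 ≠ 0 := pow_ne_zero _ hW
    rw [div_mul_eq_mul_div, div_div, ← mul_div_assoc, div_eq_div_iff (mul_ne_zero e3 e6) e4]
    apply mul_left_cancel₀ e5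
    linear_combination e0
  have hsum := D.push c hmo z h1 h2
  have hsum' : ∑ w ∈ D.fib z, D.tm c w = D.Rv c z := by
    unfold tm
    rw [hsum]
    unfold Rv
    exact Finset.sum_congr rfl fun b hb => by rw [hT b hb]
  rw [Finset.sum_congr rfl hterm, Finset.sum_const, D.card_fib h1 h2, nsmul_eq_mul, ← mul_assoc] at hsum'
  have hdk : (D.d : ℂ) * κ = 1 := mul_right_cancel₀ hRz (by rw [hsum', one_mul])
  calc hm n (D.U c) D.p D.q * D.W ^ 2 * D.AA = N2 := by rw [hN2]; ring
    _ = C ((D.d : ℂ) * κ) * N2 := by rw [hdk, C_1, one_mul]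
    _ = C (D.d : ℂ) * N1 := by rw [C_mul, mul_assoc, ← hκ]
    _ = _ := by rw [hN1]; ring

end Dat

end Pool.Agent.E8helper65.MC
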