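import Mathlib

/-!
# Embedding finitely many elements of a field of characteristic zero into the complex numbers
-/

set_option linter.unusedSectionVars false
set_option linter.unusedVariables false

open Cardinal

namespace Pool.Agent.E8helper65.MC

universe u

/-- a countable field of characteristic zero embeds into the complex numbers -/
theorem exists_emb (K : Type u) [Field K] [CharZero K] [Countable K] : Nonempty (K →+* ℂ) := by
  obtain ⟨s, hs⟩ := exists_isTranscendenceBasis ℚ K
  obtain ⟨t, ht⟩ := exists_isTranscendenceBasis ℚ ℂ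
  have hC : ℵ₀ < #ℂ := by
    rw [Cardinal.mk_complex]
    exact aleph0_lt_continuum
  have ht' : ℵ₀ < #t := by
    have h1 := IsAlgClosed.cardinal_eq_cardinal_transcendence_basis_of_aleph0_lt' _ ht
      (by simp) hC
    rw [← h1]
    exact hC
  have hst : Nonempty (s ↪ t) := by
    rw [← Cardinal.lift_mk_le']
    have h1 : #s ≤ ℵ₀ := Cardinal.mk_le_aleph0
    calc Cardinal.lift.{0} #s ≤ Cardinal.lift.{0} ℵ₀ := Cardinal.lift_le.mpr h1
      _ = Cardinal.lift.{u} ℵ₀ := by simp
      _ ≤ Cardinal.lift.{u} #t := Cardinal.lift_le.mpr ht'.le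
  obtain ⟨e⟩ := hst
  have hv : AlgebraicIndependent ℚ (Subtype.val : s → K) := hs.1
  have hw : AlgebraicIndependent ℚ (fun x : s => ((e x : t) : ℂ)) := ht.1.comp _ e.injective
  set R := Algebra.adjoin ℚ (Set.range (Subtype.val : s → K)) with hR
  have halg : Algebra.IsAlgebraic R K := hs.isAlgebraic
  let φ : R →+* ℂ := (MvPolynomial.aeval (fun x : s => ((e x : t) : ℂ))).toRingHom.comp
    hv.aevalEquiv.symm.toRingEquiv.toRingHom
  have hφ : Function.Injective φ := by
    apply Function.Injective.comp (g := (MvPolynomial.aeval (fun x : s => ((e x : t) : ℂ))))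
    · exact hw
    · exact hv.aevalEquiv.symm.injective
  let _ : Algebra R ℂ := φ.toAlgebra
  have _ : FaithfulSMul R ℂ := (faithfulSMul_iff_algebraMap_injective R ℂ).mpr hφ
  exact ⟨(IsAlgClosed.lift (R := R) (S := K) (M := ℂ)).toRingHom⟩

/-- a countable algebraically closed subfield, with an embedding into the complex numbers -/
theorem exists_sub (K : Type u) [Field K] [IsAlgClosed K] [CharZero K] (S : Set K)
    (hS : S.Finite) : ∃ (K₀ : Type u) (_ : Field K₀) (_ : IsAlgClosed K₀) (_ : CharZero K₀)
    (i : K₀ →+* K) (_ : K₀ →+* ℂ), S ⊆ Set.range i := by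
  set F := Subfield.closure S with hF
  have hFc : #F ≤ ℵ₀ := by
    refine (Subfield.cardinalMk_closure_le_max S).trans (max_le ?_ le_rfl)
    exact (Set.Finite.countable hS).le_aleph0
  have hcount : #(algebraicClosure F K) ≤ ℵ₀ := by
    refine (Algebra.IsAlgebraic.cardinalMk_le_max F (algebraicClosure F K)).trans
      (max_le hFc le_rfl)
  have hac : IsAlgClosed (algebraicClosure F K) :=
    (inferInstance : IsAlgClosure F (algebraicClosure F K)).isAlgClosed
  have hcz : CharZero (algebraicClosure F K) :=
    charZero_of_injective_algebraMap (algebraMap F (algebraicClosure F K)).injective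
  have hc : Countable (algebraicClosure F K) := Cardinal.mk_le_aleph0_iff.mp hcount
  obtain ⟨j⟩ := exists_emb (algebraicClosure F K)
  refine ⟨algebraicClosure F K, inferInstance, hac, hcz,
    algebraMap (algebraicClosure F K) K, j, ?_⟩
  intro x hx
  have hxF : x ∈ F := Subfield.subset_closure hx
  exact ⟨⟨x, (algebraicClosure F K).algebraMap_mem (⟨x, hxF⟩ : F)⟩, rfl⟩

end Pool.Agent.E8helper65.MC
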