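import Pool.Agent.E8helper65.MC.L1c
import Pool.Agent.E8helper65.MC.LF

/-!
# Fixed vectors of the push forward over an arbitrary field of characteristic zero
-/

set_option linter.unusedSectionVars false
set_option linter.unusedVariables false

namespace Pool.Agent.E8helper65.MC

open Polynomial

universe u v

lemma hm_map {K : Type u} {L : Type v} [Field K] [Field L] (ι : K →+* L) (n : ℕ) (A p q : K[X]) :
    (hm n A p q).map ι = hm n (A.map ι) (p.map ι) (q.map ι) := by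
  unfold hm
  rw [Polynomial.map_sum]
  refine Finset.sum_congr rfl fun i _ => ?_
  rw [Polynomial.map_mul, Polynomial.map_mul, Polynomial.map_C, Polynomial.map_pow,
    Polynomial.map_pow, coeff_map]

namespace Dat

section
variable {K : Type u} {L : Type v} [Field K] [Field L] (ι : K →+* L)
variable (D : Dat K) [IsAlgClosed K] [DecidableEq K] [DecidableEq L]

lemma mp_Mom (c : K → K) (c' : L → L) (h : ∀ a ∈ D.A, c' (ι a) = ι (c a)) :
    (D.mp ι).Mom c' ↔ D.Mom c := by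
  have e : ∀ g : L → L, ∀ g' : K → K, (∀ a ∈ D.A, g (ι a) = ι (g' a)) →
      ∑ a ∈ (D.mp ι).A, g a = ι (∑ a ∈ D.A, g' a) := by
    intro g g' hg
    show ∑ a ∈ D.A.map ⟨ι, ι.injective⟩, g a = _
    rw [Finset.sum_map, map_sum]
    exact Finset.sum_congr rfl fun a ha => hg a ha
  unfold Mom
  rw [e c' c h, e (fun a => c' a * a) (fun a => c a * a) (by
    intro a ha
    show c' (ι a) * ι a = ι (c a * a)
    rw [h a ha, map_mul]), e (fun a => c' a * a ^ 2) (fun a => c a * a ^ 2) (by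
    intro a ha
    show c' (ι a) * (ι a) ^ 2 = ι (c a * a ^ 2)
    rw [h a ha, map_mul, map_pow])]
  rw [map_eq_zero, map_eq_zero, map_eq_zero]

/-- the identity -/
def Idt (D : Dat K) (c : K → K) : Prop :=
  hm D.A.card (D.U c) D.p D.q * D.W ^ 2 * D.AA =
      C (D.d : K) * D.U c * D.q ^ 4 * hm D.A.card D.AA D.p D.q

lemma mp_Idt (c : K → K) (c' : L → L) (h : ∀ a ∈ D.A, c' (ι a) = ι (c a)) :
    (D.mp ι).Idt c' ↔ D.Idt c := by
  have e1 : hm (D.mp ι).A.card ((D.mp ι).U c') (D.mp ι).p (D.mp ι).q * (D.mp ι).W ^ 2 *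
      (D.mp ι).AA = (hm D.A.card (D.U c) D.p D.q * D.W ^ 2 * D.AA).map ι := by
    rw [Polynomial.map_mul, Polynomial.map_mul, Polynomial.map_pow, hm_map, D.mp_U ι c c' h,
      D.mp_W, D.mp_AA]
    show hm (D.A.map ⟨ι, ι.injective⟩).card _ _ _ * _ * _ = _
    rw [Finset.card_map]
    rfl
  have e2 : C ((D.mp ι).d : L) * (D.mp ι).U c' * (D.mp ι).q ^ 4 *
      hm (D.mp ι).A.card (D.mp ι).AA (D.mp ι).p (D.mp ι).q =
      (C (D.d : K) * D.U c * D.q ^ 4 * hm D.A.card D.AA D.p D.q).map ι := by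
    rw [Polynomial.map_mul, Polynomial.map_mul, Polynomial.map_mul, Polynomial.map_pow, hm_map,
      D.mp_U ι c c' h, D.mp_AA, Polynomial.map_C, map_natCast ι D.d]
    show _ * _ * _ * hm (D.A.map ⟨ι, ι.injective⟩).card _ _ _ = _
    rw [Finset.card_map]
    rfl
  unfold Idt
  rw [e1, e2]
  exact (Polynomial.map_injective ι ι.injective).eq_iff

lemma exists_model {K₀ : Type v} [Field K₀] [IsAlgClosed K₀] (i : K₀ →+* K) (D : Dat K)
    (hp : ∀ n, D.p.coeff n ∈ Set.range i) (hq : ∀ n, D.q.coeff n ∈ Set.range i)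
    (hA : ∀ a ∈ D.A, a ∈ Set.range i) : ∃ D₀ : Dat K₀, D₀.mp i = D := by
  classical
  obtain ⟨d, p, q, A, hd, co, pd, qd, fw, cr, wd⟩ := D
  obtain ⟨p₀, rfl⟩ : ∃ p₀ : K₀[X], p₀.map i = p := by
    have := (lifts_iff_coeff_lifts p).mpr hp
    exact (mem_lifts p).mp this
  obtain ⟨q₀, rfl⟩ : ∃ q₀ : K₀[X], q₀.map i = q := by
    have := (lifts_iff_coeff_lifts q).mpr hq
    exact (mem_lifts q).mp this
  obtain ⟨A₀, rfl⟩ : ∃ A₀ : Finset K₀, A₀.map ⟨i, i.injective⟩ = A := by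
    refine ⟨A.preimage i i.injective.injOn, ?_⟩
    ext x
    rw [Finset.mem_map]
    constructor
    · rintro ⟨y, hy, rfl⟩
      exact Finset.mem_preimage.mp hy
    · intro hx
      obtain ⟨y, rfl⟩ := hA x hx
      exact ⟨y, Finset.mem_preimage.mpr hx, rfl⟩
  have hmem : ∀ x : K₀, i x ∈ A₀.map ⟨i, i.injective⟩ → x ∈ A₀ := by
    intro x hx
    obtain ⟨y, hy, hyx⟩ := Finset.mem_map.mp hx
    have : y = x := i.injective hyx
    rw [← this]
    exact hy
  refine ⟨⟨d, p₀, q₀, A₀, hd, (Polynomial.isCoprime_map i).mp co, ?_, ?_, ?_, ?_, ?_⟩, rfl⟩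
  · rwa [natDegree_map_eq_of_injective i.injective] at pd
  · rwa [natDegree_map_eq_of_injective i.injective] at qd
  · intro a ha
    have h1 := fw (i a) (Finset.mem_map.mpr ⟨a, ha, rfl⟩)
    rw [eval_map, eval₂_hom, eval_map, eval₂_hom, ← map_div₀] at h1
    exact ⟨fun h => h1.1 (by rw [h, map_zero]), hmem _ h1.2⟩
  · intro w hw
    have h1 := cr (i w) (by rw [Wr_map, eval_map, eval₂_hom, hw, map_zero])
    rw [eval_map, eval₂_hom, eval_map, eval₂_hom, ← map_div₀] at h1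
    exact ⟨fun h => h1.1 (by rw [h, map_zero]), hmem _ h1.2⟩
  · rwa [Wr_map, natDegree_map_eq_of_injective i.injective] at wd

end

variable {K : Type u} [Field K] [IsAlgClosed K] [CharZero K] [DecidableEq K] (D : Dat K)

lemma U_ne (c : K → K) (a : K) (ha : a ∈ D.A) (hc : c a ≠ 0) : D.U c ≠ 0 := by
  intro h
  have h1 : (D.U c).eval a = c a * ∏ b ∈ D.A.erase a, (a - b) := by
    unfold U
    rw [eval_finsetSum, Finset.sum_eq_single a]
    · rw [eval_mul, eval_C, eval_prod]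
      congr 1
      exact Finset.prod_congr rfl fun b _ => by rw [eval_sub, eval_X, eval_C]
    · intro b _ hba
      rw [eval_mul, eval_prod, Finset.prod_eq_zero (i := a)
        (Finset.mem_erase.mpr ⟨hba.symm, ha⟩) (by rw [eval_sub, eval_X, eval_C, sub_self]), mul_zero]
    · intro h0
      exact absurd ha h0
  rw [h, eval_zero] at h1
  rcases mul_eq_zero.mp h1.symm with h2 | h2
  · exact hc h2
  · rw [Finset.prod_eq_zero_iff] at h2
    obtain ⟨b, hb, hb0⟩ := h2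
    exact (Finset.ne_of_mem_erase hb) (sub_eq_zero.mp hb0).symm

/-- **A fixed vector of the push forward is an eigenvector of the pull back.** -/
theorem idt_of_fixed (c : K → K) (hmo : D.Mom c) (hT : ∀ b ∈ D.A, D.T c b = c b)
    (hne : ∃ a ∈ D.A, c a ≠ 0) : D.Idt c := by
  classical
  set S : Set K := (D.p.coeff '' (Finset.range (D.d + 1) : Set ℕ)) ∪
    (D.q.coeff '' (Finset.range (D.d + 1) : Set ℕ)) ∪ (D.A : Set K) ∪ (c '' (D.A : Set K)) with hS
  have hSf : S.Finite := (((Finset.finite_toSet _).image _).union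
    ((Finset.finite_toSet _).image _)).union (Finset.finite_toSet _) |>.union
    ((Finset.finite_toSet _).image _)
  obtain ⟨K₀, _, _, _, i, j, hSi⟩ := exists_sub K S hSf
  have hco : ∀ f : K[X], f.natDegree ≤ D.d → (∀ n ≤ D.d, f.coeff n ∈ S) →
      ∀ n, f.coeff n ∈ Set.range i := by
    intro f hf hfS n
    by_cases hn : n ≤ D.d
    · exact hSi (hfS n hn)
    · rw [coeff_eq_zero_of_natDegree_lt (by omega)]
      exact ⟨0, map_zero i⟩
  obtain ⟨D₀, hD₀⟩ := exists_model i D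
    (hco D.p D.pd fun n hn => Or.inl (Or.inl (Or.inl ⟨n, Finset.mem_coe.mpr
      (Finset.mem_range.mpr (by omega)), rfl⟩)))
    (hco D.q D.qd.le fun n hn => Or.inl (Or.inl (Or.inr ⟨n, Finset.mem_coe.mpr
      (Finset.mem_range.mpr (by omega)), rfl⟩)))
    (fun a ha => hSi (Or.inl (Or.inr ha)))
  subst hD₀
  set c₀ : K₀ → K₀ := fun x => if h : ∃ y, i y = c (i x) then h.choose else 0 with hc₀
  have h0 : ∀ a ∈ D₀.A, c (i a) = i (c₀ a) := by
    intro a ha
    have h1 : ∃ y, i y = c (i a) := hSi (Or.inr ⟨i a, Finset.mem_coe.mpr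
      (Finset.mem_map.mpr ⟨a, ha, rfl⟩), rfl⟩)
    rw [hc₀]
    simp only
    rw [dif_pos h1, h1.choose_spec]
  set c₁ : ℂ → ℂ := fun y => if h : ∃ x, j x = y then j (c₀ h.choose) else 0 with hc₁
  have h1 : ∀ a ∈ D₀.A, c₁ (j a) = j (c₀ a) := by
    intro a _
    have h2 : ∃ x, j x = j a := ⟨a, rfl⟩
    rw [hc₁]
    simp only
    rw [dif_pos h2, j.injective h2.choose_spec]
  have hmo0 : D₀.Mom c₀ := (D₀.mp_Mom i c₀ c h0).mp hmo
  have hmo1 : (D₀.mp j).Mom c₁ := (D₀.mp_Mom j c₀ c₁ h1).mpr hmo0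
  have hT0 : ∀ b ∈ D₀.A, D₀.T c₀ b = c₀ b := by
    intro b hb
    apply i.injective
    rw [← D₀.mp_T i c₀ c h0 b, ← h0 b hb]
    exact hT _ (Finset.mem_map.mpr ⟨b, hb, rfl⟩)
  have hT1 : ∀ b ∈ (D₀.mp j).A, (D₀.mp j).T c₁ b = c₁ b := by
    intro b hb
    obtain ⟨b', hb', rfl⟩ := Finset.mem_map.mp hb
    show (D₀.mp j).T c₁ (j b') = c₁ (j b')
    rw [D₀.mp_T j c₀ c₁ h1 b', h1 b' hb', hT0 b' hb']
  have hU1 : (D₀.mp j).U c₁ ≠ 0 := by
    obtain ⟨a, ha, hca⟩ := hne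
    obtain ⟨a', ha', rfl⟩ := Finset.mem_map.mp ha
    apply (D₀.mp j).U_ne c₁ (j a') (Finset.mem_map.mpr ⟨a', ha', rfl⟩)
    rw [h1 a' ha']
    intro h2
    apply hca
    show c (i a') = 0
    rw [h0 a' ha', (map_eq_zero j).mp h2, map_zero]
  have hid := (D₀.mp j).lat_of_fixed c₁ hmo1 hT1 hU1
  exact (D₀.mp_Idt i c₀ c h0).mpr ((D₀.mp_Idt j c₀ c₁ h1).mp hid)

end Dat

end Pool.Agent.E8helper65.MC
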