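import Pool.Agent.E8helper65.MC.PF

/-!
# Naturality of the residues and of the operator under extensions of fields
-/

set_option linter.unusedSectionVars false
set_option linter.unusedVariables false

namespace Pool.Agent.E8helper65.MC

open Polynomial

variable {K L : Type*} [Field K] [Field L] (ι : K →+* L)

lemma taylor_map' (w : K) (N : K[X]) : taylor (ι w) (N.map ι) = (taylor w N).map ι := by
  rw [taylor_apply, taylor_apply, Polynomial.map_comp, Polynomial.map_add, Polynomial.map_X,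
    Polynomial.map_C]

/-- an explicit form of the residue -/
lemma rs_explicit (w : K) (N M : K[X]) (hM : M ≠ 0) : ∃ (k : ℕ) (M₁ N₁ N₂ : K[X]),
    M = (X - C w) ^ k * M₁ ∧ M₁.eval w ≠ 0 ∧ N = N₁ * (X - C w) ^ k + N₂ * M₁ := by
  obtain ⟨G, hG, hG0⟩ := exists_eq_pow_rootMultiplicity_mul_and_not_dvd M hM w
  have hGw : G.eval w ≠ 0 := fun h0 => hG0 (dvd_iff_isRoot.mpr h0)
  have hco : IsCoprime ((X - C w) ^ M.rootMultiplicity w) G := by
    apply IsCoprime.pow_left
    exact ((irreducible_X_sub_C w).coprime_iff_not_dvd).mpr hG0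
  obtain ⟨a, b, hab⟩ := hco
  exact ⟨_, G, a * N, b * N, hG, hGw, by linear_combination (-N) * hab⟩

lemma rs_value (w : K) (N M : K[X]) (k : ℕ) (M₁ N₁ N₂ : K[X]) (h1 : M = (X - C w) ^ k * M₁)
    (h2 : M₁.eval w ≠ 0) (h3 : N = N₁ * (X - C w) ^ k + N₂ * M₁) :
    rs w (al N / al M) = if k = 0 then 0 else (taylor w N₂).coeff (k - 1) := by
  have hM1 : M₁ ≠ 0 := by rintro rfl; simp at h2
  have a1 : al M₁ ≠ 0 := al_ne hM1
  have a2 : al (X - C w) ≠ 0 := al_ne (X_sub_C_ne_zero w)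
  have e1 : al N / al M = al N₁ / al M₁ + al N₂ * (al (X - C w) ^ k)⁻¹ := by
    rw [h1, h3]
    simp only [al, map_mul, map_add, map_pow] at a1 a2 ⊢
    field_simp
  rw [e1, rs_add, rs_of_Rg ((Rg_alg w N₁).div (Rg_alg w M₁) h2), zero_add]
  by_cases hk : k = 0
  · rw [if_pos hk, hk, pow_zero, inv_one, mul_one]
    exact rs_of_Rg (Rg_alg w N₂)
  · rw [if_neg hk, rs_pow_inv w k _ _ (Nat.one_le_iff_ne_zero.mpr hk)
      ((lr_alg w N₂).trans (lp_apply w N₂)), Polynomial.coeff_coe]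

/-- **naturality of the residues** -/
theorem rs_map (w : K) (N M : K[X]) (hM : M ≠ 0) :
    rs (ι w) (al (N.map ι) / al (M.map ι)) = ι (rs w (al N / al M)) := by
  obtain ⟨k, M₁, N₁, N₂, h1, h2, h3⟩ := rs_explicit w N M hM
  have e : (X - C (ι w) : L[X]) = (X - C w : K[X]).map ι := by
    rw [Polynomial.map_sub, Polynomial.map_X, Polynomial.map_C]
  rw [rs_value w N M k M₁ N₁ N₂ h1 h2 h3, rs_value (ι w) (N.map ι) (M.map ι) k (M₁.map ι)
    (N₁.map ι) (N₂.map ι) (by rw [h1, e, Polynomial.map_mul, Polynomial.map_pow]) (by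
      rw [eval_map, eval₂_hom]
      exact (map_ne_zero ι).mpr h2) (by
      rw [h3, e, Polynomial.map_add, Polynomial.map_mul, Polynomial.map_mul, Polynomial.map_pow])]
  split_ifs with hk
  · rw [map_zero]
  · rw [taylor_map', coeff_map]

lemma Wr_map (p q : K[X]) : Wr (p.map ι) (q.map ι) = (Wr p q).map ι := by
  unfold Wr
  rw [derivative_map, derivative_map]
  simp only [Polynomial.map_mul, Polynomial.map_sub]

namespace Dat

variable (D : Dat K)

/-- extension of the field -/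
noncomputable def mp [IsAlgClosed K] : Dat L where
  d := D.d
  p := D.p.map ι
  q := D.q.map ι
  A := D.A.map ⟨ι, ι.injective⟩
  hd := D.hd
  co := (Polynomial.isCoprime_map ι).mpr D.co
  pd := natDegree_map_le.trans D.pd
  qd := by rw [natDegree_map_eq_of_injective ι.injective, D.qd]
  fw := by
    intro a ha
    rw [Finset.mem_map] at ha
    obtain ⟨a, ha, rfl⟩ := ha
    obtain ⟨h1, h2⟩ := D.fw a ha
    show (D.q.map ι).eval (ι a) ≠ 0 ∧ (D.p.map ι).eval (ι a) / (D.q.map ι).eval (ι a) ∈ _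
    rw [eval_map, eval₂_hom, eval_map, eval₂_hom, ← map_div₀]
    exact ⟨(map_ne_zero ι).mpr h1, Finset.mem_map.mpr ⟨_, h2, rfl⟩⟩
  cr := by
    intro w hw
    rw [Wr_map] at hw
    have hW : Wr D.p D.q ≠ 0 := D.W_ne
    have h1 : w ∈ ((Wr D.p D.q).map ι).roots := by
      rw [mem_roots (Polynomial.map_ne_zero hW)]
      exact hw
    rw [(IsAlgClosed.splits (Wr D.p D.q)).roots_map ι, Multiset.mem_map] at h1
    obtain ⟨w, hw1, rfl⟩ := h1
    rw [mem_roots hW] at hw1
    obtain ⟨h1, h2⟩ := D.cr w hw1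
    rw [eval_map, eval₂_hom, eval_map, eval₂_hom, ← map_div₀]
    exact ⟨(map_ne_zero ι).mpr h1, Finset.mem_map.mpr ⟨_, h2, rfl⟩⟩
  wd := by
    rw [Wr_map, natDegree_map_eq_of_injective ι.injective, D.wd]

lemma RF_eq [DecidableEq K] (c : K → K) : D.R c * D.F = al (D.U c * D.q ^ 2) / al (D.AA * D.W) := by
  have aW : al D.W ≠ 0 := al_ne D.W_ne
  have aA : al D.AA ≠ 0 := al_ne D.AA_monic.ne_zero
  rw [D.R_eq c]
  unfold F
  simp only [al, map_mul, map_pow] at aW aA ⊢
  field_simp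

variable [IsAlgClosed K] [DecidableEq K] [DecidableEq L]

lemma mp_M (b : K) : (D.mp ι).M (ι b) = (D.M b).map ι := by
  unfold M
  rw [Polynomial.map_sub, Polynomial.map_mul, Polynomial.map_C]
  rfl

lemma mp_W : (D.mp ι).W = D.W.map ι := Wr_map ι D.p D.q

lemma mp_fib (b : K) : (D.mp ι).fib (ι b) = (D.fib b).map ⟨ι, ι.injective⟩ := by
  ext w
  unfold fib
  rw [mp_M, Multiset.mem_toFinset, (IsAlgClosed.splits (D.M b)).roots_map ι, Multiset.mem_map,
    Finset.mem_map]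
  constructor
  · rintro ⟨a, ha, rfl⟩
    exact ⟨a, Multiset.mem_toFinset.mpr ha, rfl⟩
  · rintro ⟨a, ha, rfl⟩
    exact ⟨a, Multiset.mem_toFinset.mp ha, rfl⟩

lemma mp_AA : (D.mp ι).AA = D.AA.map ι := by
  unfold AA
  rw [Polynomial.map_prod]
  show ∏ a ∈ D.A.map ⟨ι, ι.injective⟩, (X - C a) = _
  rw [Finset.prod_map]
  refine Finset.prod_congr rfl fun a _ => ?_
  rw [Polynomial.map_sub, Polynomial.map_X, Polynomial.map_C]
  rfl

lemma mp_U (c : K → K) (c' : L → L) (h : ∀ a ∈ D.A, c' (ι a) = ι (c a)) :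
    (D.mp ι).U c' = (D.U c).map ι := by
  unfold U
  rw [Polynomial.map_sum]
  show ∑ a ∈ D.A.map ⟨ι, ι.injective⟩, C (c' a) *
    ∏ b ∈ (D.A.map ⟨ι, ι.injective⟩).erase a, (X - C b) = _
  rw [Finset.sum_map]
  refine Finset.sum_congr rfl fun a ha => ?_
  rw [Polynomial.map_mul, Polynomial.map_C, Polynomial.map_prod, ← h a ha]
  congr 1
  rw [← Finset.map_erase, Finset.prod_map]
  refine Finset.prod_congr rfl fun b _ => ?_
  rw [Polynomial.map_sub, Polynomial.map_X, Polynomial.map_C]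
  rfl

/-- **naturality of the operator** -/
theorem mp_T (c : K → K) (c' : L → L) (h : ∀ a ∈ D.A, c' (ι a) = ι (c a)) (b : K) :
    (D.mp ι).T c' (ι b) = ι (D.T c b) := by
  unfold T
  rw [mp_fib, Finset.sum_map, map_sum]
  refine Finset.sum_congr rfl fun w _ => ?_
  show rs (ι w) _ = _
  rw [(D.mp ι).RF_eq, D.RF_eq, ← rs_map ι w _ _ (mul_ne_zero D.AA_monic.ne_zero D.W_ne)]
  congr 2
  · congr 1
    rw [Polynomial.map_mul, Polynomial.map_pow, D.mp_U ι c c' h]
    rfl
  · congr 1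
    rw [Polynomial.map_mul, D.mp_AA, D.mp_W]

end Dat

end Pool.Agent.E8helper65.MC
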