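import Pool.Agent.E8helper65.MC.TT

/-!
# The push forward identity
-/

set_option linter.unusedSectionVars false
set_option linter.unusedVariables false

namespace Pool.Agent.E8helper65.MC

open Polynomial

variable {K : Type*} [Field K]

namespace Dat

variable (D : Dat K)

/-- the values of `R c` -/
noncomputable def Rv (c : K → K) (z : K) : K := ∑ a ∈ D.A, c a / (z - a)

lemma Rg_Rv (c : K → K) {w : K} (hw : w ∉ D.A) : Rg w (D.R c) (D.Rv c w) := by
  refine Rg.sum D.A (u := fun a => c a / (w - a)) fun a ha => ?_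
  have h := Rg_alg w (X - C a)
  rw [eval_sub, eval_X, eval_C] at h
  refine (Rg_cst w (c a)).div h ?_
  rw [sub_ne_zero]
  rintro rfl
  exact hw ha

lemma M_deg {z : K} (hz : z ≠ D.p.coeff D.d / D.q.coeff D.d) : (D.M z).natDegree = D.d := by
  have hq : D.q.coeff D.d ≠ 0 := by
    have h1 := D.qd
    conv_lhs => rw [← h1]
    exact leadingCoeff_ne_zero.mpr D.q_ne
  apply le_antisymm
  · unfold M
    refine (natDegree_sub_le _ _).trans (max_le D.pd ((natDegree_C_mul_le _ _).trans D.qd.le))
  · apply le_natDegree_of_ne_zero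
    unfold M
    rw [coeff_sub, coeff_C_mul]
    intro h
    apply hz
    rw [eq_div_iff hq]
    exact (sub_eq_zero.mp h).symm

/-- **The push forward identity.** -/
theorem push [IsAlgClosed K] [CharZero K] [DecidableEq K] (c : K → K) (hm : D.Mom c) (z : K)
    (hzA : z ∉ D.A) (hz : z ≠ D.p.coeff D.d / D.q.coeff D.d) :
    ∑ w ∈ D.fib z, D.Rv c w * D.q.eval w ^ 4 / D.W.eval w ^ 2 = D.Rv (D.T c) z := by
  set G : RatFunc K := al (D.q ^ 3) / (al D.W * al (D.M z)) with hG
  have aW : al D.W ≠ 0 := al_ne D.W_ne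
  have aM : al (D.M z) ≠ 0 := al_ne (D.M_ne z)
  have aA : al D.AA ≠ 0 := al_ne D.AA_monic.ne_zero
  have hMv : ∀ b w, (D.M b).eval w = 0 → (D.M z).eval w = (b - z) * D.q.eval w := by
    intro b w h
    unfold M at h ⊢
    rw [eval_sub, eval_mul, eval_C] at h ⊢
    linear_combination h
  have h1 := D.key c G (fun b => 1 / (b - z)) (fun _ => 0) (by
    intro b hb w hw
    have hbz : b - z ≠ 0 := by
      rw [sub_ne_zero]
      rintro rfl
      exact hzA hb
    have e1 : cst (1 / (b - z)) * D.F - G =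
        al (D.M b * (C (1 / (b - z)) * D.q ^ 2)) / al D.W * (al (D.M z))⁻¹ := by
      have e2 : al (C (1 / (b - z)) * D.q ^ 2 * D.M z - D.q ^ 3) =
          al (D.M b * (C (1 / (b - z)) * D.q ^ 2)) := by
        congr 1
        have e3 : C (1 / (b - z)) * C (b - z) = (1 : K[X]) := by
          rw [← C_mul, one_div, inv_mul_cancel₀ hbz, C_1]
        rw [C_sub] at e3
        unfold M
        linear_combination (D.q ^ 3) * e3
      rw [← e2]
      unfold F
      rw [hG]
      simp only [al, map_mul, map_sub, map_pow] at aW aM ⊢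
      field_simp
    rw [e1]
    have h2 := (D.Rg_M hw (C (1 / (b - z)) * D.q ^ 2)).mul ((Rg_alg w (D.M z)).inv (by
      rw [hMv b w hw]
      exact mul_ne_zero hbz (D.q_eval_ne hw)))
    rw [zero_mul] at h2
    exact h2)
  simp only [mul_zero, Finset.sum_const_zero, zero_add] at h1
  -- the residue theorem
  have hRG : D.R c * G = al (D.U c * D.q ^ 3) / al (D.AA * D.W * D.M z) := by
    rw [D.R_eq c, hG]
    simp only [al, map_mul, map_pow] at aW aM aA ⊢
    field_simp
  have hd := D.hd
  have hne : D.AA * D.W * D.M z ≠ 0 :=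
    mul_ne_zero (mul_ne_zero D.AA_monic.ne_zero D.W_ne) (D.M_ne z)
  have hdeg : (D.AA * D.W * D.M z).natDegree = D.A.card + (2 * D.d - 2) + D.d := by
    rw [natDegree_mul (mul_ne_zero D.AA_monic.ne_zero D.W_ne) (D.M_ne z),
      natDegree_mul D.AA_monic.ne_zero D.W_ne, D.AA_deg, D.M_deg hz]
    rw [show D.W.natDegree = 2 * D.d - 2 from D.wd]
  have hfib : ∀ w, w ∈ D.fib z → w ∉ D.B := by
    intro w hw hB
    rw [mem_fib] at hw
    rw [mem_B, D.val hw] at hB
    exact hzA hB.2
  have h2 := rt (D.U c * D.q ^ 3) _ hne (by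
    rw [hdeg]
    rcases D.U_deg' c hm with h | h
    · rw [h, zero_mul, natDegree_zero]
      omega
    · have h3 := natDegree_mul_le (p := D.U c) (q := D.q ^ 3)
      rw [natDegree_pow, D.qd] at h3
      omega) (D.B ∪ D.fib z) (by
    intro w hw
    rw [Finset.mem_union, not_or] at hw
    have h3 : w ∉ D.A := fun h => hw.1 (D.A_sub_B h)
    rw [← hRG, hG]
    have h4 : (D.M z).eval w ≠ 0 := fun h => hw.2 (D.mem_fib.mpr h)
    have h5 := (Rg_alg w (D.q ^ 3)).div ((Rg_alg w D.W).mul (Rg_alg w (D.M z)))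
      (mul_ne_zero (D.W_eval_ne hw.1) h4)
    exact ⟨_, (D.Rg_Rv c h3).mul h5⟩)
  rw [← hRG, Finset.sum_union (by
    rw [Finset.disjoint_right]
    exact hfib), ← h1] at h2
  -- the residues in the fibre
  have h3 : ∀ w ∈ D.fib z, rs w (D.R c * G) =
      D.Rv c w * D.q.eval w ^ 4 / D.W.eval w ^ 2 := by
    intro w hw
    have hwB := hfib w hw
    have hwA : w ∉ D.A := fun h => hwB (D.A_sub_B h)
    have hWw := D.W_eval_ne hwB
    rw [mem_fib] at hw
    obtain ⟨e, G', H, g1, g2, g3, g4, g5⟩ := D.loc hw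
    have he : e = 0 := by
      by_contra he
      apply hWw
      rw [g3, eval_mul, eval_pow, eval_sub, eval_X, eval_C, sub_self, zero_pow he, zero_mul]
    subst he
    rw [pow_zero, one_mul] at g3
    rw [zero_add, pow_one] at g1
    rw [zero_add, Nat.cast_one, one_mul, ← g3] at g4
    have hq := D.q_eval_ne hw
    have e1 : D.R c * G = (D.R c * (al (D.q ^ 3) / (al D.W * al G'))) / al (X - C w) := by
      rw [hG, g1]
      have a1 : al G' ≠ 0 := al_ne (by rintro rfl; simp at g2)
      have a2 : al (X - C w) ≠ 0 := al_ne (X_sub_C_ne_zero w)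
      simp only [al, map_mul] at aW a1 a2 ⊢
      field_simp
    rw [e1, rs_div_lin ((D.Rg_Rv c hwA).mul ((Rg_alg w (D.q ^ 3)).div
      ((Rg_alg w D.W).mul (Rg_alg w G')) (mul_ne_zero hWw g2)))]
    rw [g4, eval_pow]
    field_simp
  rw [Finset.sum_congr rfl h3] at h2
  have h4 : D.Rv (D.T c) z = -∑ b ∈ D.A, 1 / (b - z) * D.T c b := by
    unfold Rv
    rw [← Finset.sum_neg_distrib]
    refine Finset.sum_congr rfl fun b _ => ?_
    rw [← neg_sub b z, div_neg]
    ring
  rw [h4]
  linear_combination h2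

end Dat

end Pool.Agent.E8helper65.MC
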