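import Mathlib

/-!
# Residues of rational functions
-/

set_option linter.unusedSectionVars false
set_option linter.unusedVariables false

namespace Pool.Agent.E8helper65.MC

open Polynomial

variable {K : Type*} [Field K]

/-- the expansion of a polynomial at `w` -/
noncomputable def lp (w : K) : K[X] →+* LaurentSeries K :=
  (HahnSeries.ofPowerSeries ℤ K).comp
    ((Polynomial.coeToPowerSeries.ringHom).comp (taylorAlgHom w).toRingHom)

lemma lp_apply (w : K) (N : K[X]) :
    lp w N = HahnSeries.ofPowerSeries ℤ K ((taylor w N : K[X]) : PowerSeries K) := rfl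

lemma lp_inj (w : K) : Function.Injective (lp w) := by
  intro a b h
  rw [lp_apply, lp_apply] at h
  exact taylor_injective w (Polynomial.coe_injective K (HahnSeries.ofPowerSeries_injective h))

/-- the Laurent expansion of a rational function at `w` -/
noncomputable def lr (w : K) : RatFunc K →+* LaurentSeries K := IsFractionRing.lift (lp_inj w)

lemma lr_alg (w : K) (N : K[X]) : lr w (algebraMap K[X] (RatFunc K) N) = lp w N :=
  IsFractionRing.lift_algebraMap (lp_inj w) N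

/-- the residue at `w` -/
noncomputable def rs (w : K) (g : RatFunc K) : K := (lr w g).coeff (-1)

/-- `g` is regular at `w` with value `v` -/
def Rg (w : K) (g : RatFunc K) (v : K) : Prop :=
  ∃ φ : PowerSeries K, lr w g = HahnSeries.ofPowerSeries ℤ K φ ∧ PowerSeries.constantCoeff φ = v

lemma Rg_alg (w : K) (N : K[X]) : Rg w (algebraMap K[X] (RatFunc K) N) (N.eval w) := by
  refine ⟨_, (lr_alg w N).trans (lp_apply w N), ?_⟩
  rw [← PowerSeries.coeff_zero_eq_constantCoeff_apply, Polynomial.coeff_coe, taylor_coeff_zero]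

lemma Rg.add {w : K} {g h : RatFunc K} {u v : K} (hg : Rg w g u) (hh : Rg w h v) :
    Rg w (g + h) (u + v) := by
  obtain ⟨φ, h1, h2⟩ := hg
  obtain ⟨ψ, h3, h4⟩ := hh
  exact ⟨φ + ψ, by rw [map_add, map_add, h1, h3], by rw [map_add, h2, h4]⟩

lemma Rg.mul {w : K} {g h : RatFunc K} {u v : K} (hg : Rg w g u) (hh : Rg w h v) :
    Rg w (g * h) (u * v) := by
  obtain ⟨φ, h1, h2⟩ := hg
  obtain ⟨ψ, h3, h4⟩ := hh
  exact ⟨φ * ψ, by rw [map_mul, map_mul, h1, h3], by rw [map_mul, h2, h4]⟩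

lemma Rg.neg {w : K} {g : RatFunc K} {u : K} (hg : Rg w g u) : Rg w (-g) (-u) := by
  obtain ⟨φ, h1, h2⟩ := hg
  exact ⟨-φ, by rw [map_neg, map_neg, h1], by rw [map_neg, h2]⟩

lemma Rg.sub {w : K} {g h : RatFunc K} {u v : K} (hg : Rg w g u) (hh : Rg w h v) :
    Rg w (g - h) (u - v) := by
  rw [sub_eq_add_neg, sub_eq_add_neg]
  exact hg.add hh.neg

lemma Rg.inv {w : K} {g : RatFunc K} {u : K} (hg : Rg w g u) (hu : u ≠ 0) :
    Rg w g⁻¹ u⁻¹ := by
  obtain ⟨φ, h1, h2⟩ := hg
  refine ⟨φ⁻¹, ?_, by rw [PowerSeries.constantCoeff_inv, h2]⟩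
  rw [map_inv₀, h1]
  have h3 : φ * φ⁻¹ = 1 := PowerSeries.mul_inv_cancel φ (by rw [h2]; exact hu)
  have h4 : HahnSeries.ofPowerSeries ℤ K φ * HahnSeries.ofPowerSeries ℤ K φ⁻¹ = 1 := by
    rw [← map_mul, h3, map_one]
  exact inv_eq_of_mul_eq_one_right h4

lemma Rg.div {w : K} {g h : RatFunc K} {u v : K} (hg : Rg w g u) (hh : Rg w h v) (hv : v ≠ 0) :
    Rg w (g / h) (u / v) := by
  rw [div_eq_mul_inv, div_eq_mul_inv]
  exact hg.mul (hh.inv hv)

lemma Rg.pow {w : K} {g : RatFunc K} {u : K} (hg : Rg w g u) (n : ℕ) : Rg w (g ^ n) (u ^ n) := by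
  obtain ⟨φ, h1, h2⟩ := hg
  exact ⟨φ ^ n, by rw [map_pow, map_pow, h1], by rw [map_pow, h2]⟩

lemma Rg.sum {ι : Type*} (s : Finset ι) {w : K} {g : ι → RatFunc K} {u : ι → K}
    (hg : ∀ i ∈ s, Rg w (g i) (u i)) : Rg w (∑ i ∈ s, g i) (∑ i ∈ s, u i) := by
  classical
  induction s using Finset.induction_on with
  | empty =>
    rw [Finset.sum_empty, Finset.sum_empty]
    exact ⟨0, by rw [map_zero, map_zero], by rw [map_zero]⟩
  | insert a s ha ih =>
    rw [Finset.sum_insert ha, Finset.sum_insert ha]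
    exact (hg a (Finset.mem_insert_self _ _)).add
      (ih fun i hi => hg i (Finset.mem_insert_of_mem hi))

/-- a constant -/
noncomputable abbrev cst (c : K) : RatFunc K := algebraMap K[X] (RatFunc K) (C c)

lemma Rg_cst (w c : K) : Rg w (cst c) c := by
  have := Rg_alg w (C c)
  rwa [eval_C] at this

lemma rs_add (w : K) (g h : RatFunc K) : rs w (g + h) = rs w g + rs w h := by
  unfold rs
  rw [map_add]
  rfl

lemma rs_neg (w : K) (g : RatFunc K) : rs w (-g) = -rs w g := by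
  unfold rs
  rw [map_neg]
  rfl

lemma rs_sub (w : K) (g h : RatFunc K) : rs w (g - h) = rs w g - rs w h := by
  rw [sub_eq_add_neg, rs_add, rs_neg, sub_eq_add_neg]

lemma rs_zero (w : K) : rs w 0 = 0 := by
  unfold rs
  rw [map_zero]
  rfl

lemma rs_sum {ι : Type*} (w : K) (s : Finset ι) (g : ι → RatFunc K) :
    rs w (∑ i ∈ s, g i) = ∑ i ∈ s, rs w (g i) := by
  classical
  induction s using Finset.induction_on with
  | empty => rw [Finset.sum_empty, Finset.sum_empty, rs_zero]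
  | insert a s ha ih => rw [Finset.sum_insert ha, Finset.sum_insert ha, rs_add, ih]

lemma rs_cst_mul (w c : K) (g : RatFunc K) : rs w (cst c * g) = c * rs w g := by
  unfold rs
  rw [map_mul, lr_alg, lp_apply, taylor_C, Polynomial.coe_C, HahnSeries.ofPowerSeries_C,
    HahnSeries.C_mul_eq_smul, HahnSeries.coeff_smul, smul_eq_mul]

lemma rs_of_Rg {w : K} {g : RatFunc K} {v : K} (h : Rg w g v) : rs w g = 0 := by
  obtain ⟨φ, h1, _⟩ := h
  unfold rs
  rw [h1]
  rw [HahnSeries.ofPowerSeries_apply]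
  apply HahnSeries.embDomain_of_notMem_range
  rintro ⟨n, hn⟩
  have : (n : ℤ) = -1 := hn
  omega

lemma lr_lin (w : K) : lr w (algebraMap K[X] (RatFunc K) (X - C w)) =
    (HahnSeries.single (1 : ℤ) (1 : K)) := by
  rw [lr_alg, lp_apply, map_sub, taylor_X, taylor_C, add_sub_cancel_right, Polynomial.coe_X,
    HahnSeries.ofPowerSeries_X]

lemma lr_lin_pow (w : K) (k : ℕ) : lr w ((algebraMap K[X] (RatFunc K) (X - C w)) ^ k)⁻¹ =
    (HahnSeries.single (-(k : ℤ)) (1 : K)) := by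
  rw [map_inv₀, map_pow, lr_lin, HahnSeries.single_pow, one_pow]
  apply inv_eq_of_mul_eq_one_right
  rw [HahnSeries.single_mul_single]
  simp

lemma rs_pow_inv (w : K) (k : ℕ) (g : RatFunc K) (φ : PowerSeries K) (hk : 1 ≤ k)
    (h : lr w g = HahnSeries.ofPowerSeries ℤ K φ) :
    rs w (g * ((algebraMap K[X] (RatFunc K) (X - C w)) ^ k)⁻¹) = PowerSeries.coeff (k - 1) φ := by
  unfold rs
  rw [map_mul, lr_lin_pow, h]
  have e : (-1 : ℤ) = ((k - 1 : ℕ) : ℤ) + (-(k : ℤ)) := by omega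
  rw [e, HahnSeries.coeff_mul_single_add, mul_one, HahnSeries.ofPowerSeries_apply_coeff]

lemma rs_div_lin {w : K} {g : RatFunc K} {v : K} (h : Rg w g v) :
    rs w (g / algebraMap K[X] (RatFunc K) (X - C w)) = v := by
  obtain ⟨φ, h1, h2⟩ := h
  have := rs_pow_inv w 1 g φ le_rfl h1
  rw [pow_one] at this
  rw [div_eq_mul_inv, this, Nat.sub_self, PowerSeries.coeff_zero_eq_constantCoeff_apply, h2]

end Pool.Agent.E8helper65.MC
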