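import Pool.Agent.E8helper65.MC.RS

/-!
# The residue theorem for rational functions
-/

set_option linter.unusedSectionVars false
set_option linter.unusedVariables false

namespace Pool.Agent.E8helper65.MC

open Polynomial

variable {K : Type*} [Field K]

/-- abbreviation -/
noncomputable abbrev al (N : K[X]) : RatFunc K := algebraMap K[X] (RatFunc K) N

lemma al_inj : Function.Injective (al : K[X] → RatFunc K) := IsFractionRing.injective _ _

lemma al_ne {N : K[X]} (h : N ≠ 0) : al N ≠ 0 := by
  intro h'
  apply h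
  apply al_inj
  rw [h']
  exact (map_zero _).symm

lemma nd_lt {N : K[X]} {n : ℕ} (h : N.degree < (n : WithBot ℕ)) (hn : 0 < n) :
    N.natDegree < n := by
  by_cases h0 : N = 0
  · rw [h0, natDegree_zero]
    exact hn
  · exact (natDegree_lt_iff_degree_lt h0).mpr h

/-- the product of powers of linear factors -/
noncomputable def MP (S : Finset K) (k : K → ℕ) : K[X] := ∏ w ∈ S, (X - C w) ^ k w

lemma MP_monic (S : Finset K) (k : K → ℕ) : (MP S k).Monic :=
  monic_prod_of_monic _ _ fun w _ => (monic_X_sub_C w).pow _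

lemma MP_deg (S : Finset K) (k : K → ℕ) : (MP S k).natDegree = ∑ w ∈ S, k w := by
  unfold MP
  rw [natDegree_prod_of_monic _ _ fun w _ => (monic_X_sub_C w).pow _]
  exact Finset.sum_congr rfl fun w _ => by rw [natDegree_pow, natDegree_X_sub_C, mul_one]

lemma MP_eval_ne (S : Finset K) (k : K → ℕ) (w : K) (hw : w ∉ S) : (MP S k).eval w ≠ 0 := by
  unfold MP
  rw [eval_prod, Finset.prod_ne_zero_iff]
  intro x hx
  rw [eval_pow, eval_sub, eval_X, eval_C]
  apply pow_ne_zero
  rw [sub_ne_zero]
  rintro rfl
  exact hw hx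

lemma MP_cop (S : Finset K) (k : K → ℕ) (w : K) (hw : w ∉ S) (n : ℕ) :
    IsCoprime ((X - C w) ^ n) (MP S k) := by
  classical
  unfold MP
  apply IsCoprime.prod_right
  intro x hx
  apply IsCoprime.pow
  apply isCoprime_X_sub_C_of_isUnit_sub
  apply IsUnit.mk0
  rw [sub_ne_zero]
  rintro rfl
  exact hw hx

/-- the residue theorem, with a product of powers -/
theorem rt_prod (S : Finset K) (k : K → ℕ) : ∀ (N : K[X]), N.degree < ((∑ w ∈ S, k w : ℕ) : WithBot ℕ) →
    ∑ w ∈ S, rs w (al N / al (MP S k)) = N.coeff ((∑ w ∈ S, k w) - 1) := by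
  classical
  induction S using Finset.induction_on with
  | empty =>
    intro N hN
    rw [Finset.sum_empty] at hN ⊢
    have : N = 0 := by
      rw [Nat.cast_zero] at hN
      rw [← degree_eq_bot, ← Nat.WithBot.lt_zero_iff]
      exact hN
    rw [this, coeff_zero]
  | insert w S hw ih =>
    intro N hN
    rw [Finset.sum_insert hw] at hN ⊢
    set n := ∑ x ∈ S, k x with hn
    set M' := MP S k with hM'
    have hM'm : M'.Monic := MP_monic S k
    have hM'd : M'.natDegree = n := MP_deg S k
    have hM'w : M'.eval w ≠ 0 := MP_eval_ne S k w hw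
    have hMP : MP (insert w S) k = (X - C w) ^ k w * M' := by
      unfold MP at hM' ⊢
      rw [Finset.prod_insert hw, hM']
    set L : K[X] := (X - C w) ^ k w with hL
    have hLm : L.Monic := (monic_X_sub_C w).pow _
    have hLd : L.natDegree = k w := by rw [hL, natDegree_pow, natDegree_X_sub_C, mul_one]
    obtain ⟨a, b, hab⟩ := MP_cop S k w hw (k w)
    set N2 := (b * N) %ₘ L with hN2
    set Q2 := (b * N) /ₘ L with hQ2
    have hdiv : N2 + L * Q2 = b * N := modByMonic_add_div _ _
    set N1 := a * N + Q2 * M' with hN1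
    have hab' : a * L + b * M' = 1 := hab
    have hNN : N = N1 * L + N2 * M' := by
      rw [hN1]
      linear_combination (-N) * hab' - M' * hdiv
    have hN2d : N2.degree < (k w : ℕ) := by
      rw [← hLd, ← degree_eq_natDegree hLm.ne_zero]
      exact degree_modByMonic_lt _ hLm
    have hN1d : N1.degree < (n : ℕ) := by
      have h1 : (N1 * L).degree < ((k w + n : ℕ) : WithBot ℕ) := by
        have h2 : N1 * L = N - N2 * M' := by rw [hNN]; ring
        rw [h2]
        refine (degree_sub_le _ _).trans_lt (max_lt hN ?_)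
        rw [degree_mul, degree_eq_natDegree hM'm.ne_zero, hM'd, Nat.cast_add]
        exact WithBot.add_lt_add_right (WithBot.coe_ne_bot) hN2d
      rw [degree_mul, degree_eq_natDegree hLm.ne_zero, hLd, Nat.cast_add, add_comm] at h1
      exact lt_of_add_lt_add_left h1
    have hsplit : al N / al (MP (insert w S) k) = al N1 / al M' + al N2 * ((al (X - C w)) ^ k w)⁻¹ := by
      have e1 : al L ≠ 0 := al_ne hLm.ne_zero
      have e2 : al M' ≠ 0 := al_ne hM'm.ne_zero
      have e3 : (al (X - C w)) ^ k w = al L := by rw [hL, al, al, map_pow]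
      have e4 : al N = al N1 * al L + al N2 * al M' := by
        conv_lhs => rw [hNN]
        simp only [al, map_add, map_mul]
      have e5 : al (MP (insert w S) k) = al L * al M' := by
        rw [hMP]
        simp only [al, map_mul]
      rw [e3, e4, e5]
      field_simp
    rw [Finset.sum_insert hw]
    have hw1 : rs w (al N / al (MP (insert w S) k)) = N2.coeff (k w - 1) := by
      rw [hsplit, rs_add, rs_of_Rg ((Rg_alg w N1).div (Rg_alg w M') hM'w), zero_add]
      rcases Nat.eq_zero_or_pos (k w) with h0 | h0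
      · have hz : N2 = 0 := by
          rw [h0, Nat.cast_zero] at hN2d
          rw [← degree_eq_bot, ← Nat.WithBot.lt_zero_iff]
          exact hN2d
        rw [hz, al, map_zero, zero_mul, rs_zero, coeff_zero]
      · rw [rs_pow_inv w (k w) _ _ h0 ((lr_alg w N2).trans (lp_apply w N2)), Polynomial.coeff_coe]
        have hnd : N2.natDegree ≤ k w - 1 := by
          have := nd_lt hN2d h0
          omega
        rcases hnd.lt_or_eq with h3 | h3
        · rw [coeff_eq_zero_of_natDegree_lt h3, coeff_eq_zero_of_natDegree_lt]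
          rwa [natDegree_taylor]
        · rw [← h3, coeff_taylor_natDegree, leadingCoeff]
    have hw2 : ∑ x ∈ S, rs x (al N / al (MP (insert w S) k)) = N1.coeff (n - 1) := by
      rw [← ih N1 hN1d]
      refine Finset.sum_congr rfl fun x hx => ?_
      have hxw : x ≠ w := fun h => hw (h ▸ hx)
      rw [hsplit, rs_add]
      have h4 := (Rg_alg x N2).mul (((Rg_alg x (X - C w)).pow (k w)).inv (by
        apply pow_ne_zero
        rw [eval_sub, eval_X, eval_C, sub_ne_zero]
        exact hxw))
      rw [rs_of_Rg h4, add_zero]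
    rw [hw1, hw2]
    have c1 : (N1 * L).coeff (k w + n - 1) = N1.coeff (n - 1) := by
      rcases Nat.eq_zero_or_pos n with h0 | h0
      · have hz : N1 = 0 := by
          rw [h0, Nat.cast_zero] at hN1d
          rw [← degree_eq_bot, ← Nat.WithBot.lt_zero_iff]
          exact hN1d
        rw [hz, zero_mul, coeff_zero, coeff_zero]
      · have := coeff_mul_add_eq_of_natDegree_le (df := n - 1) (dg := k w) (f := N1) (g := L)
          (by have := nd_lt hN1d h0; omega) hLd.le
        rw [show k w + n - 1 = n - 1 + k w by omega, this, ← hLd, coeff_natDegree,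
          hLm.leadingCoeff, mul_one]
    have c2 : (N2 * M').coeff (k w + n - 1) = N2.coeff (k w - 1) := by
      rcases Nat.eq_zero_or_pos (k w) with h0 | h0
      · have hz : N2 = 0 := by
          rw [h0, Nat.cast_zero] at hN2d
          rw [← degree_eq_bot, ← Nat.WithBot.lt_zero_iff]
          exact hN2d
        rw [hz, zero_mul, coeff_zero, coeff_zero]
      · have := coeff_mul_add_eq_of_natDegree_le (df := k w - 1) (dg := n) (f := N2) (g := M')
          (by have := nd_lt hN2d h0; omega) hM'd.le
        rw [show k w + n - 1 = k w - 1 + n by omega, this, ← hM'd, coeff_natDegree,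
          hM'm.leadingCoeff, mul_one]
    have c3 : N.coeff (k w + n - 1) = N1.coeff (n - 1) + N2.coeff (k w - 1) := by
      rw [← c1, ← c2, ← coeff_add, ← hNN]
    rw [← hn, c3, add_comm]

/-- **The residue theorem.** -/
theorem rt [IsAlgClosed K] (N M : K[X]) (hM : M ≠ 0) (hdeg : N.natDegree + 2 ≤ M.natDegree)
    (S : Finset K) (hS : ∀ w, w ∉ S → ∃ v, Rg w (al N / al M) v) :
    ∑ w ∈ S, rs w (al N / al M) = 0 := by
  classical
  set R := M.roots.toFinset with hR
  set k : K → ℕ := fun w => M.rootMultiplicity w with hk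
  have hMM : M = C M.leadingCoeff * MP R k := by
    have h1 := (IsAlgClosed.splits M).eq_prod_roots
    conv_lhs => rw [h1]
    congr 1
    unfold MP
    rw [Finset.prod_multiset_map_count]
    refine Finset.prod_congr rfl fun w _ => ?_
    rw [count_roots]
  have hl : M.leadingCoeff ≠ 0 := leadingCoeff_ne_zero.mpr hM
  have hdM : M.natDegree = ∑ w ∈ R, k w := by
    conv_lhs => rw [hMM]
    rw [natDegree_C_mul hl, MP_deg]
  have e1 : al N / al M = cst (M.leadingCoeff)⁻¹ * (al N / al (MP R k)) := by
    conv_lhs => rw [hMM]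
    have h2 : al (C M.leadingCoeff) ≠ 0 := al_ne (C_ne_zero.mpr hl)
    have h3 : cst (M.leadingCoeff)⁻¹ * al (C M.leadingCoeff) = 1 := by
      rw [cst, al, ← map_mul, ← C_mul, inv_mul_cancel₀ hl, C_1, map_one]
    have h4 : al (C M.leadingCoeff * MP R k) = al (C M.leadingCoeff) * al (MP R k) := by
      simp only [al, map_mul]
    rw [h4]
    have h5 : al (MP R k) ≠ 0 := al_ne (MP_monic R k).ne_zero
    have h6 : cst (M.leadingCoeff)⁻¹ = (al (C M.leadingCoeff))⁻¹ := eq_inv_of_mul_eq_one_left h3
    rw [h6]
    field_simp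
  have h2 : ∑ w ∈ R, rs w (al N / al M) = 0 := by
    rw [e1]
    simp only [rs_cst_mul]
    rw [← Finset.mul_sum, rt_prod R k N ?_, ← hdM, coeff_eq_zero_of_natDegree_lt (by omega),
      mul_zero]
    rw [← hdM]
    by_cases hN0 : N = 0
    · rw [hN0, degree_zero]
      exact WithBot.bot_lt_coe _
    · rw [degree_eq_natDegree hN0]
      exact_mod_cast (by omega : N.natDegree < M.natDegree)
  have h3 : ∀ w, w ∉ R → rs w (al N / al M) = 0 := by
    intro w hw
    refine rs_of_Rg ((Rg_alg w N).div (Rg_alg w M) ?_)
    intro h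
    apply hw
    rw [hR, Multiset.mem_toFinset, mem_roots hM]
    exact h
  have h4 : ∀ w, w ∉ S → rs w (al N / al M) = 0 := by
    intro w hw
    obtain ⟨v, hv⟩ := hS w hw
    exact rs_of_Rg hv
  have h5 : ∑ w ∈ R ∪ S, rs w (al N / al M) = ∑ w ∈ R, rs w (al N / al M) := by
    symm
    apply Finset.sum_subset Finset.subset_union_left
    intro w _ hw
    exact h3 w hw
  have h6 : ∑ w ∈ R ∪ S, rs w (al N / al M) = ∑ w ∈ S, rs w (al N / al M) := by
    symm
    apply Finset.sum_subset Finset.subset_union_right
    intro w _ hw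
    exact h4 w hw
  rw [← h6, h5, h2]

end Pool.Agent.E8helper65.MC
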