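import Pool.Agent.E8helper65.MC.RT

/-!
# The operator on quadratic differentials with simple poles in a forward invariant set
-/

set_option linter.unusedSectionVars false
set_option linter.unusedVariables false

namespace Pool.Agent.E8helper65.MC

open Polynomial

variable {K : Type*} [Field K]

/-- the Wronskian -/
noncomputable def Wr (p q : K[X]) : K[X] := derivative p * q - p * derivative q

/-- a rational map `p / q` of degree `d` and a finite set `A` of points of the affine line,
with `f (A) ⊆ A`, containing the critical values; the point at infinity is in general position -/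
structure Dat (K : Type*) [Field K] where
  d : ℕ
  p : K[X]
  q : K[X]
  A : Finset K
  hd : 2 ≤ d
  co : IsCoprime p q
  pd : p.natDegree ≤ d
  qd : q.natDegree = d
  fw : ∀ a ∈ A, q.eval a ≠ 0 ∧ p.eval a / q.eval a ∈ A
  cr : ∀ w, (Wr p q).eval w = 0 → q.eval w ≠ 0 ∧ p.eval w / q.eval w ∈ A
  wd : (Wr p q).natDegree = 2 * d - 2

namespace Dat

variable (D : Dat K)

/-- the Wronskian -/
noncomputable def W : K[X] := Wr D.p D.q

/-- the fibre polynomial -/
noncomputable def M (b : K) : K[X] := D.p - C b * D.q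

lemma q_ne : D.q ≠ 0 := by
  intro h
  have := D.qd
  have := D.hd
  rw [h, natDegree_zero] at *
  omega

lemma W_ne : D.W ≠ 0 := by
  intro h
  have h1 := D.wd
  have h2 := D.hd
  have h3 : Wr D.p D.q = 0 := h
  rw [h3, natDegree_zero] at h1
  omega

lemma M_ne (b : K) : D.M b ≠ 0 := by
  intro h
  have h1 : D.p = C b * D.q := sub_eq_zero.mp h
  have h2 := D.co
  rw [h1] at h2
  have h3 : IsUnit D.q := by
    rw [← isCoprime_self]
    exact h2.of_mul_left_right
  have h4 := natDegree_eq_zero_of_isUnit h3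
  have h5 := D.qd
  have h6 := D.hd
  omega

lemma q_eval_ne {b w : K} (h : (D.M b).eval w = 0) : D.q.eval w ≠ 0 := by
  intro h0
  have h1 : D.p.eval w = 0 := by
    unfold M at h
    rw [eval_sub, eval_mul, eval_C, h0, mul_zero, sub_zero] at h
    exact h
  obtain ⟨x, y, hxy⟩ := D.co
  have h2 := congrArg (eval w) hxy
  rw [eval_add, eval_mul, eval_mul, h1, h0, mul_zero, mul_zero, add_zero, eval_one] at h2
  exact zero_ne_one h2

lemma val {b w : K} (h : (D.M b).eval w = 0) : D.p.eval w / D.q.eval w = b := by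
  have h1 := D.q_eval_ne h
  rw [div_eq_iff h1]
  unfold M at h
  rw [eval_sub, eval_mul, eval_C] at h
  exact sub_eq_zero.mp h

lemma M_eval_of {b w : K} (h0 : D.q.eval w ≠ 0) (h : D.p.eval w / D.q.eval w = b) :
    (D.M b).eval w = 0 := by
  unfold M
  rw [eval_sub, eval_mul, eval_C, ← h, div_mul_cancel₀ _ h0, sub_self]

/-- the fibre -/
noncomputable def fib [DecidableEq K] (b : K) : Finset K := (D.M b).roots.toFinset

lemma mem_fib [DecidableEq K] {b w : K} : w ∈ D.fib b ↔ (D.M b).eval w = 0 := by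
  unfold fib
  rw [Multiset.mem_toFinset, mem_roots (D.M_ne b)]
  rfl

/-- the preimage of `A` -/
noncomputable def B [DecidableEq K] : Finset K := D.A.biUnion D.fib

lemma mem_B [DecidableEq K] {w : K} : w ∈ D.B ↔ D.q.eval w ≠ 0 ∧ D.p.eval w / D.q.eval w ∈ D.A := by
  unfold B
  rw [Finset.mem_biUnion]
  constructor
  · rintro ⟨b, hb, hw⟩
    rw [mem_fib] at hw
    exact ⟨D.q_eval_ne hw, by rw [D.val hw]; exact hb⟩
  · rintro ⟨h0, h1⟩
    exact ⟨_, h1, D.mem_fib.mpr (D.M_eval_of h0 rfl)⟩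

lemma A_sub_B [DecidableEq K] : D.A ⊆ D.B := by
  intro a ha
  rw [mem_B]
  exact D.fw a ha

lemma W_eval_ne [DecidableEq K] {w : K} (h : w ∉ D.B) : D.W.eval w ≠ 0 := by
  intro h0
  exact h (D.mem_B.mpr (D.cr w h0))

lemma fib_disj [DecidableEq K] : (D.A : Set K).PairwiseDisjoint D.fib := by
  intro a _ b _ hab
  rw [Function.onFun, Finset.disjoint_left]
  intro w h1 h2
  rw [mem_fib] at h1 h2
  exact hab ((D.val h1).symm.trans (D.val h2))

/-- the quadratic differential with simple poles in `A` -/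
noncomputable def R (c : K → K) : RatFunc K := ∑ a ∈ D.A, cst (c a) / al (X - C a)

/-- the inverse of the square of the derivative of ... : `1 / f'` -/
noncomputable def F : RatFunc K := al (D.q ^ 2) / al D.W

/-- the push forward operator, on the residues -/
noncomputable def T [DecidableEq K] (c : K → K) (b : K) : K := ∑ w ∈ D.fib b, rs w (D.R c * D.F)

lemma Rg_R (c : K → K) {w : K} (hw : w ∉ D.A) : ∃ v, Rg w (D.R c) v := by
  refine ⟨_, Rg.sum D.A (u := fun a => c a / (w - a)) fun a ha => ?_⟩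
  have h := Rg_alg w (X - C a)
  rw [eval_sub, eval_X, eval_C] at h
  refine (Rg_cst w (c a)).div h ?_
  rw [sub_ne_zero]
  rintro rfl
  exact hw ha

lemma rs_R_mul [DecidableEq K] (c : K → K) {w v : K} {θ : RatFunc K} (h : Rg w θ v) :
    rs w (D.R c * θ) = if w ∈ D.A then c w * v else 0 := by
  unfold R
  rw [Finset.sum_mul, rs_sum]
  have h1 : ∀ a ∈ D.A, rs w (cst (c a) / al (X - C a) * θ) = if w = a then c w * v else 0 := by
    intro a _
    by_cases hwa : w = a
    · subst hwa
      rw [if_pos rfl, div_mul_eq_mul_div, mul_div_assoc, rs_cst_mul, rs_div_lin h]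
    · rw [if_neg hwa]
      have h2 := Rg_alg w (X - C a)
      rw [eval_sub, eval_X, eval_C] at h2
      exact rs_of_Rg (((Rg_cst w (c a)).div h2 (sub_ne_zero.mpr hwa)).mul h)
  rw [Finset.sum_congr rfl h1, Finset.sum_ite_eq]

/-- the main identity -/
theorem key [DecidableEq K] (c : K → K) (G : RatFunc K) (hb u : K → K)
    (H : ∀ b ∈ D.A, ∀ w, (D.M b).eval w = 0 → Rg w (cst (hb b) * D.F - G) (u w)) :
    ∑ b ∈ D.A, hb b * D.T c b = ∑ a ∈ D.A, c a * u a + ∑ w ∈ D.B, rs w (D.R c * G) := by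
  have h1 : ∀ b ∈ D.A, hb b * D.T c b = ∑ w ∈ D.fib b,
      ((if w ∈ D.A then c w * u w else 0) + rs w (D.R c * G)) := by
    intro b hb'
    unfold T
    rw [Finset.mul_sum]
    refine Finset.sum_congr rfl fun w hw => ?_
    rw [mem_fib] at hw
    rw [← rs_cst_mul, ← D.rs_R_mul c (H b hb' w hw), ← rs_add]
    congr 1
    ring
  rw [Finset.sum_congr rfl h1, ← Finset.sum_biUnion D.fib_disj, Finset.sum_add_distrib]
  congr 1
  rw [← Finset.sum_filter]
  refine Finset.sum_congr ?_ fun _ _ => rfl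
  ext a
  rw [Finset.mem_filter]
  constructor
  · exact fun h => h.2
  · exact fun h => ⟨D.A_sub_B h, h⟩

/-- the three moments vanish -/
def Mom (c : K → K) : Prop :=
  ∑ a ∈ D.A, c a = 0 ∧ ∑ a ∈ D.A, c a * a = 0 ∧ ∑ a ∈ D.A, c a * a ^ 2 = 0

/-- the denominator -/
noncomputable def AA : K[X] := ∏ a ∈ D.A, (X - C a)

/-- the numerator -/
noncomputable def U [DecidableEq K] (c : K → K) : K[X] :=
  ∑ a ∈ D.A, C (c a) * ∏ b ∈ D.A.erase a, (X - C b)

lemma AA_monic : D.AA.Monic := monic_prod_of_monic _ _ fun a _ => monic_X_sub_C a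

lemma AA_deg : D.AA.natDegree = D.A.card := by
  unfold AA
  rw [natDegree_prod_of_monic _ _ fun a _ => monic_X_sub_C a]
  simp

lemma U_deg [DecidableEq K] (c : K → K) (h : D.A.Nonempty) : (D.U c).natDegree ≤ D.A.card - 1 := by
  unfold U
  apply natDegree_sum_le_of_forall_le
  intro a ha
  refine (natDegree_C_mul_le _ _).trans ?_
  rw [natDegree_prod_of_monic _ _ fun a _ => monic_X_sub_C a]
  simp only [natDegree_X_sub_C, Finset.sum_const, smul_eq_mul, mul_one]
  rw [Finset.card_erase_of_mem ha]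

lemma R_eq [DecidableEq K] (c : K → K) : D.R c = al (D.U c) / al D.AA := by
  have h1 : al D.AA ≠ 0 := al_ne D.AA_monic.ne_zero
  rw [eq_div_iff h1]
  unfold R U
  rw [Finset.sum_mul]
  have e : al (∑ a ∈ D.A, C (c a) * ∏ b ∈ D.A.erase a, (X - C b)) =
      ∑ a ∈ D.A, al (C (c a) * ∏ b ∈ D.A.erase a, (X - C b)) := by
    unfold al
    rw [map_sum]
  rw [e]
  refine Finset.sum_congr rfl fun a ha => ?_
  have h2 : al (X - C a) ≠ 0 := al_ne (X_sub_C_ne_zero a)
  have h3 : D.AA = (X - C a) * ∏ b ∈ D.A.erase a, (X - C b) := by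
    unfold AA
    exact (Finset.mul_prod_erase D.A (fun b => X - C b) ha).symm
  rw [h3]
  simp only [al, map_mul]
  simp only [al] at h2
  field_simp

lemma X3U [DecidableEq K] (c : K → K) (hm : D.Mom c) :
    X ^ 3 * D.U c = D.U (fun a => c a * a ^ 3) := by
  obtain ⟨h0, h1, h2⟩ := hm
  have h3 : X ^ 3 * D.U c - D.U (fun a => c a * a ^ 3) =
      (C (∑ a ∈ D.A, c a) * X ^ 2 + C (∑ a ∈ D.A, c a * a) * X + C (∑ a ∈ D.A, c a * a ^ 2)) *
        D.AA := by
    unfold U
    rw [Finset.mul_sum, ← Finset.sum_sub_distrib, map_sum, map_sum, map_sum, Finset.sum_mul,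
      Finset.sum_mul, ← Finset.sum_add_distrib, ← Finset.sum_add_distrib, Finset.sum_mul]
    refine Finset.sum_congr rfl fun a ha => ?_
    have h4 : D.AA = (X - C a) * ∏ b ∈ D.A.erase a, (X - C b) := by
      unfold AA
      exact (Finset.mul_prod_erase D.A (fun b => X - C b) ha).symm
    rw [h4]
    simp only [C_mul, C_pow]
    ring
  rw [h0, h1, h2] at h3
  simp only [map_zero, zero_mul, add_zero] at h3
  exact sub_eq_zero.mp h3

lemma U_deg' [DecidableEq K] (c : K → K) (hm : D.Mom c) :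
    D.U c = 0 ∨ (D.U c).natDegree + 4 ≤ D.A.card := by
  by_cases hU : D.U c = 0
  · exact Or.inl hU
  · right
    have hne : D.A.Nonempty := by
      rw [Finset.nonempty_iff_ne_empty]
      intro h
      apply hU
      unfold U
      rw [h, Finset.sum_empty]
    have h1 := D.U_deg (fun a => c a * a ^ 3) hne
    rw [← D.X3U c hm, natDegree_X_pow_mul 3 hU] at h1
    have h2 : 1 ≤ D.A.card := hne.card_pos
    omega

/-- the residue theorem, for the forms `R c * (Y / W)` -/
lemma resY [IsAlgClosed K] [DecidableEq K] (c : K → K) (hm : D.Mom c) (Y : K[X])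
    (hY : Y.natDegree ≤ 2 * D.d) : ∑ w ∈ D.B, rs w (D.R c * (al Y / al D.W)) = 0 := by
  have h1 : D.R c * (al Y / al D.W) = al (D.U c * Y) / al (D.AA * D.W) := by
    rw [D.R_eq c]
    have h2 : al D.AA ≠ 0 := al_ne D.AA_monic.ne_zero
    have h3 : al D.W ≠ 0 := al_ne D.W_ne
    simp only [al, map_mul] at h2 h3 ⊢
    field_simp
  have hd := D.hd
  have hWd : D.W.natDegree = 2 * D.d - 2 := D.wd
  have hdeg : (D.AA * D.W).natDegree = D.A.card + (2 * D.d - 2) := by
    rw [natDegree_mul D.AA_monic.ne_zero D.W_ne, D.AA_deg, hWd]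
  rw [h1]
  apply rt _ _ (mul_ne_zero D.AA_monic.ne_zero D.W_ne)
  · rw [hdeg]
    rcases D.U_deg' c hm with h | h
    · rw [h, zero_mul, natDegree_zero]
      omega
    · have := natDegree_mul_le (p := D.U c) (q := Y)
      omega
  · intro w hw
    have h2 : w ∉ D.A := fun h => hw (D.A_sub_B h)
    obtain ⟨v, hv⟩ := D.Rg_R c h2
    rw [← h1]
    exact ⟨_, hv.mul ((Rg_alg w Y).div (Rg_alg w D.W) (D.W_eval_ne hw))⟩

/-- the local structure at a point of a fibre -/
lemma loc [CharZero K] {b w : K} (h : (D.M b).eval w = 0) : ∃ (e : ℕ) (G H : K[X]),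
    D.M b = (X - C w) ^ (e + 1) * G ∧ G.eval w ≠ 0 ∧ D.W = (X - C w) ^ e * H ∧
    H.eval w = D.q.eval w * ((e + 1 : ℕ) * G.eval w) ∧ H.eval w ≠ 0 := by
  obtain ⟨G, hG, hG0⟩ := exists_eq_pow_rootMultiplicity_mul_and_not_dvd (D.M b) (D.M_ne b) w
  have hpos : 0 < (D.M b).rootMultiplicity w := (rootMultiplicity_pos (D.M_ne b)).mpr h
  obtain ⟨e, he⟩ : ∃ e, (D.M b).rootMultiplicity w = e + 1 := ⟨_, (Nat.succ_pred_eq_of_pos hpos).symm⟩
  rw [he] at hG
  have hGw : G.eval w ≠ 0 := by
    intro h0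
    exact hG0 (dvd_iff_isRoot.mpr h0)
  have hW : D.W = D.q * derivative (D.M b) - derivative D.q * D.M b := by
    unfold W Wr M
    simp only [derivative_sub, derivative_mul, derivative_C]
    ring
  have hder : derivative (D.M b) = (X - C w) ^ e * (((e + 1 : ℕ) : K[X]) * G +
      (X - C w) * derivative G) := by
    rw [hG, derivative_mul, derivative_pow, derivative_X_sub_C, Nat.add_sub_cancel]
    simp only [mul_one, map_natCast]
    ring
  have hq := D.q_eval_ne h
  refine ⟨e, G, D.q * (((e + 1 : ℕ) : K[X]) * G + (X - C w) * derivative G) -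
    derivative D.q * ((X - C w) * G), hG, hGw, ?_, ?_, ?_⟩
  · rw [hW, hder]
    conv_lhs => rw [hG]
    ring
  · simp
  · simp only [eval_sub, eval_mul, eval_add, eval_natCast, eval_X, eval_C, sub_self, zero_mul,
      add_zero, mul_zero, sub_zero]
    refine mul_ne_zero hq (mul_ne_zero ?_ hGw)
    exact_mod_cast Nat.succ_ne_zero e

lemma Rg_cancel {w : K} {L Z H : K[X]} (hL : L ≠ 0) (hH : H.eval w ≠ 0) :
    Rg w (al (L * Z) / al (L * H)) (Z.eval w / H.eval w) := by
  have h1 : al (L * Z) / al (L * H) = al Z / al H := by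
    have h2 : al L ≠ 0 := al_ne hL
    simp only [al, map_mul] at h2 ⊢
    exact mul_div_mul_left _ _ h2
  rw [h1]
  exact (Rg_alg w Z).div (Rg_alg w H) hH

/-- multiples of the fibre polynomial over the Wronskian vanish -/
lemma Rg_M [CharZero K] {b w : K} (h : (D.M b).eval w = 0) (Z : K[X]) :
    Rg w (al (D.M b * Z) / al D.W) 0 := by
  obtain ⟨e, G, H, h1, h2, h3, h4, h5⟩ := D.loc h
  have h6 := Rg_cancel (w := w) (L := (X - C w) ^ e) (Z := (X - C w) * (G * Z)) (H := H)
    (pow_ne_zero _ (X_sub_C_ne_zero w)) h5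
  rw [eval_mul, eval_sub, eval_X, eval_C, sub_self, zero_mul, zero_div] at h6
  rw [h1, h3]
  have h7 : (X - C w) ^ (e + 1) * G * Z = (X - C w) ^ e * ((X - C w) * (G * Z)) := by ring
  rw [h7]
  exact h6

/-- the operator preserves the vanishing of the moments -/
theorem T_mom [IsAlgClosed K] [CharZero K] [DecidableEq K] (c : K → K) (hm : D.Mom c) :
    D.Mom (D.T c) := by
  have hpq : ∀ Y Z : K[X], Y.natDegree ≤ D.d → Z.natDegree ≤ D.d →
      (Y * Z).natDegree ≤ 2 * D.d := fun Y Z hY hZ =>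
    natDegree_mul_le.trans (by omega)
  have hqd := D.qd.le
  have hpd := D.pd
  have hF : ∀ x : K, cst x * D.F = al (C x * D.q ^ 2) / al D.W := by
    intro x
    unfold F
    simp only [al, map_mul]
    ring
  have hsub : ∀ Y Z : K[X], al Y / al D.W - al Z / al D.W = al (Y - Z) / al D.W := by
    intro Y Z
    simp only [al, map_sub]
    ring
  refine ⟨?_, ?_, ?_⟩
  · have h1 := D.key c (al (D.q * D.q) / al D.W) (fun _ => 1) (fun _ => 0) (by
      intro b _ w hw
      rw [hF, hsub, show C (1 : K) * D.q ^ 2 - D.q * D.q = D.M b * 0 by rw [C_1]; ring]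
      exact D.Rg_M hw 0)
    rw [D.resY c hm _ (hpq _ _ hqd hqd)] at h1
    simpa using h1
  · have h1 := D.key c (al (D.p * D.q) / al D.W) (fun b => b) (fun _ => 0) (by
      intro b _ w hw
      rw [hF, hsub, show C b * D.q ^ 2 - D.p * D.q = D.M b * (-D.q) by unfold M; ring]
      exact D.Rg_M hw _)
    rw [D.resY c hm _ (hpq _ _ hpd hqd)] at h1
    simp only [mul_zero, Finset.sum_const_zero, add_zero] at h1
    rw [← h1]
    exact Finset.sum_congr rfl fun b _ => mul_comm _ _
  · have h1 := D.key c (al (D.p * D.p) / al D.W) (fun b => b ^ 2) (fun _ => 0) (by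
      intro b _ w hw
      rw [hF, hsub, show C (b ^ 2) * D.q ^ 2 - D.p * D.p =
        D.M b * (-(C b * D.q + D.p)) by unfold M; rw [C_pow]; ring]
      exact D.Rg_M hw _)
    rw [D.resY c hm _ (hpq _ _ hpd hpd)] at h1
    simp only [mul_zero, Finset.sum_const_zero, add_zero] at h1
    rw [← h1]
    exact Finset.sum_congr rfl fun b _ => mul_comm _ _

end Dat

end Pool.Agent.E8helper65.MC
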